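import Pool.Agent.TH395.TZH_I

/-!
Distribution of the valuations, case `h = 0`.
-/

set_option autoImplicit false

namespace Pool.Agent.TH395.TZ

open Pool.Agent.H260TZ Pool.Agent.TH32

variable {R : Type} [CommRing R] [IsDomain R] (D : DV R)

lemma min_aux (n t Y : ℕ) : min (min t (min Y n)) n = min (min t Y) n := by omega

/-- the integrand of `E0` -/
lemma E0_eq (q g n : ℕ) (G : ℕ → ℕ → ℕ → ℕ → ENNReal) :
    E0 q g (cap n G) = ∑' t : ℕ, mu q t *
      T2 q (g + t) (fun Y Z => cap n G (min t Y) Y t Z) := by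
  unfold E0 T2 S0 S1
  refine tsum_congr fun t => ?_
  have h1 : min t (g + t) = t := by omega
  have h2 : ∀ i, min t (g + t + i + 1) = t := fun i => by omega
  simp only [h1, h2]

/-- dependence on the first level -/
lemma T2_cap (g n t : ℕ) (G : ℕ → ℕ → ℕ → ℕ → ENNReal) :
    T2 D.q (g + t) (fun Y Z => cap n G (min t Y) Y t Z) =
      T2 D.q (g + min t n) (fun Y Z => cap n G (min (min t n) Y) Y (min t n) Z) := by
  rcases le_total t n with h | h
  · rw [min_eq_left h]
  · rw [min_eq_right h]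
    have key : ∀ s, n ≤ s → T2 D.q (g + s) (fun Y Z => cap n G (min s Y) Y s Z) =
        I D n (fun x => G (D.lev n x) (D.lev n x) n (D.lev n x)) := by
      intro s hs
      have h1 := two_centre D (g + s) n 1 isUnit_one
        (fun Y Z => G (min (min s Y) n) Y (min s n) Z)
      have h2 : (fun Y Z => cap n G (min s Y) Y s Z) =
          (fun a b => G (min (min s (min a n)) n) (min a n) (min s n) (min b n)) := by
        funext Y Z
        unfold cap
        rw [min_aux]
      rw [h2, ← h1]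
      apply I_congr
      intro x
      have hx := D.lev_le n x
      have e1 : D.lev n (x + D.t ^ (g + s) * 1) = D.lev n x := by
        apply lev_congr
        have e : x + D.t ^ (g + s) * 1 - x = D.t ^ (g + s) := by ring
        rw [e]
        exact pow_dvd_pow _ (by omega)
      have e2 : min (min s (D.lev n x)) n = D.lev n x := by omega
      rw [e1, e2, min_eq_right hs]
    rw [key t h, key n le_rfl]

/-- a bijective change of variables -/
lemma sum_subst {n : ℕ} (F : R → R → ENNReal) (hF : ∀ x x' y y', D.t ^ n ∣ x - x' →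
    D.t ^ n ∣ y - y' → F x y = F x' y') (α : R) :
    ∑ τ₁ : D.Q n, ∑ τ₂ : D.Q n, F (D.lift τ₁) (D.lift τ₂) =
      ∑ τ₁ : D.Q n, ∑ τ₂ : D.Q n, F (D.lift τ₁ - α * D.lift τ₂) (D.lift τ₂) := by
  rw [Finset.sum_comm, Finset.sum_comm (f := fun τ₁ τ₂ : D.Q n =>
    F (D.lift τ₁ - α * D.lift τ₂) (D.lift τ₂))]
  refine Finset.sum_congr rfl fun τ₂ _ => ?_
  have hP : Per D n (fun x => F x (D.lift τ₂)) := by
    intro x y h
    exact hF _ _ _ _ h (by rw [sub_self]; exact dvd_zero _)
  have h := I_shift D hP (-(α * D.lift τ₂))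
  have h1 := sum_eq D n (fun x => F x (D.lift τ₂))
  have h2 := sum_eq D n (fun x => F (x + -(α * D.lift τ₂)) (D.lift τ₂))
  rw [h1, ← h, ← h2]
  simp only [sub_eq_add_neg]

theorem d0 : D0Stmt := by
  intro R _ _ D n g α β hκ G
  obtain ⟨κ, hκ'⟩ := hκ
  unfold TS
  rw [sum_subst D (fun x y => G (min (D.lev n x) (D.lev n y)) (D.lev n y)
    (D.lev n (1 * x + α * y)) (D.lev n (D.t ^ g * x + β * y))) (by
      intro x x' y y' h1 h2
      have e1 : D.t ^ n ∣ (1 * x + α * y) - (1 * x' + α * y') := by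
        have e : (1 * x + α * y) - (1 * x' + α * y') = (x - x') + α * (y - y') := by ring
        rw [e]
        exact dvd_add h1 (Dvd.dvd.mul_left h2 _)
      have e2 : D.t ^ n ∣ (D.t ^ g * x + β * y) - (D.t ^ g * x' + β * y') := by
        have e : (D.t ^ g * x + β * y) - (D.t ^ g * x' + β * y') =
          D.t ^ g * (x - x') + β * (y - y') := by ring
        rw [e]
        exact dvd_add (Dvd.dvd.mul_left h1 _) (Dvd.dvd.mul_left h2 _)
      simp only [lev_congr D h1, lev_congr D h2, lev_congr D e1, lev_congr D e2]) α]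
  have inner : ∀ w : R, ∑ τ₂ : D.Q n, G (min (D.lev n (w - α * D.lift τ₂))
      (D.lev n (D.lift τ₂))) (D.lev n (D.lift τ₂))
      (D.lev n (1 * (w - α * D.lift τ₂) + α * D.lift τ₂))
      (D.lev n (D.t ^ g * (w - α * D.lift τ₂) + β * D.lift τ₂)) =
      (D.q : ENNReal) ^ n * T2 D.q (g + D.lev n w)
        (fun Y Z => cap n G (min (D.lev n w) Y) Y (D.lev n w) Z) := by
    intro w
    obtain ⟨u, hu⟩ := D.lev_unit n w
    have hw := D.lev_le n w
    have h1 := two_centre D (g + D.lev n w) n ((↑κ⁻¹ : R) * u) (κ⁻¹.isUnit.mul u.isUnit)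
      (fun Y Z => G (min (min (D.lev n w) Y) n) Y (D.lev n w) Z)
    have h2 : (fun Y Z => cap n G (min (D.lev n w) Y) Y (D.lev n w) Z) =
        (fun a b => G (min (min (D.lev n w) (min a n)) n) (min a n) (D.lev n w) (min b n)) := by
      funext Y Z
      unfold cap
      rw [min_aux, min_eq_left hw]
    rw [h2, ← h1, ← sum_eq]
    refine Finset.sum_congr rfl fun τ₂ _ => ?_
    set y := D.lift τ₂ with hy
    have hyl := D.lev_le n y
    have e0 : 1 * (w - α * y) + α * y = w := by ring
    have e1 : min (D.lev n (w - α * y)) (D.lev n y) = min (D.lev n w) (D.lev n y) := by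
      have dv : ∀ i ≤ n, (D.t ^ i ∣ w - α * y ∧ D.t ^ i ∣ y) ↔ (D.t ^ i ∣ w ∧ D.t ^ i ∣ y) := by
        intro i _
        constructor
        · rintro ⟨ha, hb⟩
          refine ⟨?_, hb⟩
          have := dvd_add ha (Dvd.dvd.mul_left hb α)
          rwa [sub_add_cancel] at this
        · rintro ⟨ha, hb⟩
          exact ⟨dvd_sub ha (Dvd.dvd.mul_left hb α), hb⟩
      have hwl := D.lev_le n (w - α * y)
      apply le_antisymm
      · have h3 := (dv (min (D.lev n (w - α * y)) (D.lev n y)) (by omega)).mp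
          ⟨(D.dvd_iff_lev (by omega) _).mpr (min_le_left _ _),
            (D.dvd_iff_lev (by omega) _).mpr (min_le_right _ _)⟩
        exact le_min ((D.dvd_iff_lev (by omega) _).mp h3.1)
          ((D.dvd_iff_lev (by omega) _).mp h3.2)
      · have h3 := (dv (min (D.lev n w) (D.lev n y)) (by omega)).mpr
          ⟨(D.dvd_iff_lev (by omega) _).mpr (min_le_left _ _),
            (D.dvd_iff_lev (by omega) _).mpr (min_le_right _ _)⟩
        exact le_min ((D.dvd_iff_lev (by omega) _).mp h3.1)
          ((D.dvd_iff_lev (by omega) _).mp h3.2)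
    have e2 : D.lev n (D.t ^ g * (w - α * y) + β * y) =
        D.lev n (y + D.t ^ (g + D.lev n w) * ((↑κ⁻¹ : R) * u)) := by
      rw [← lev_mul_unit D κ.isUnit (a := y + D.t ^ (g + D.lev n w) * ((↑κ⁻¹ : R) * u))]
      apply lev_congr
      have hk : (κ : R) * (↑κ⁻¹ : R) = 1 := Units.mul_inv κ
      have e : D.t ^ g * (w - α * y) + β * y -
          (κ : R) * (y + D.t ^ (g + D.lev n w) * ((↑κ⁻¹ : R) * u)) =
          D.t ^ g * (w - D.t ^ (D.lev n w) * u) := by
        rw [pow_add]
        linear_combination (-(y : R)) * hκ' - D.t ^ g * D.t ^ (D.lev n w) * u * hk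
      rw [e]
      exact Dvd.dvd.mul_left hu _
    have e3 : min (min (D.lev n w) (D.lev n y)) n = min (D.lev n w) (D.lev n y) := by omega
    rw [e0, e1, e2, e3]
  simp only [inner]
  rw [← Finset.mul_sum, sum_eq D n (fun w => T2 D.q (g + D.lev n w)
        (fun Y Z => cap n G (min (D.lev n w) Y) Y (D.lev n w) Z)),
    one_centre D n (fun t => T2 D.q (g + t) (fun Y Z => cap n G (min t Y) Y t Z)), E0_eq,
    ← mul_assoc, ← pow_add, ← two_mul]
  congr 1
  refine tsum_congr fun t => ?_
  rw [← T2_cap]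

end Pool.Agent.TH395.TZ
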