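import Pool.Agent.TH395.TZH_D0

/-!
Distribution of the valuations, cases `g, h ≥ 1` and the central case.
-/

set_option autoImplicit false

namespace Pool.Agent.TH395.TZ

open Pool.Agent.H260TZ Pool.Agent.TH32

variable {R : Type} [CommRing R] [IsDomain R] (D : DV R)

/-- periodicity of functions of three levels -/
lemma per3 {n : ℕ} (f : ℕ → ℕ → ℕ → ENNReal) (a b : R) :
    Per D n (fun x => f (D.lev n x) (D.lev n (x + a)) (D.lev n (x + b))) := by
  intro x y h
  have h2 : ∀ c, D.t ^ n ∣ x + c - (y + c) := by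
    intro c
    have e : x + c - (y + c) = x - y := by ring
    rw [e]; exact h
  simp only [lev_congr D h, lev_congr D (h2 _)]

/-! ### Three centres, `v(a₁) = ρ`, `v(a₂) = ρ + g`, `g ≥ 1` -/

/-- distribution of `(v(x), v(x + a₁), v(x + a₂))` for `v(a₁) = ρ`, `v(a₂) = g + ρ` -/
noncomputable def T31 (q g ρ : ℕ) (f : ℕ → ℕ → ℕ → ENNReal) : ENNReal :=
  S0 q ρ (fun y => f y y y) + mj 2 q ρ * f ρ ρ ρ + S1 q ρ (fun y => f ρ y ρ) +
    (∑' i : ℕ, if i + 1 < g then mu q (ρ + i + 1) * f (ρ + i + 1) ρ (ρ + i + 1) else 0) +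
    mj 2 q (g + ρ) * f (g + ρ) ρ (g + ρ) + S1 q (g + ρ) (fun y => f y ρ (g + ρ)) +
    S1 q (g + ρ) (fun y => f (g + ρ) ρ y)

lemma T31_zero (q g : ℕ) (hq : 2 ≤ q) (f : ℕ → ℕ → ℕ → ENNReal) :
    T31 q (g + 1) 0 f = mj 2 q 0 * f 0 0 0 + (q : ENNReal)⁻¹ *
      (T2 q g (fun a b => f (a + 1) 0 (b + 1)) + ∑' t : ℕ, mu q t * f 0 (t + 1) 0) := by
  unfold T31 T2
  rw [S0_zero, S1_zero q hq]
  simp only [Nat.add_zero]
  rw [S1_succ q g hq, S1_succ q g hq, mj_succ 2 q g hq]
  have e : (∑' i : ℕ, if i + 1 < g + 1 then mu q (0 + i + 1) * f (0 + i + 1) 0 (0 + i + 1)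
      else 0) = (q : ENNReal)⁻¹ * S0 q g (fun y => f (y + 1) 0 (y + 1)) := by
    unfold S0
    rw [← ENNReal.tsum_mul_left]
    refine tsum_congr fun i => ?_
    by_cases h : i < g
    · rw [if_pos h, if_pos (by omega), Nat.zero_add, mu_succ q i hq, mul_assoc]
    · rw [if_neg h, if_neg (by omega), mul_zero]
  rw [e]
  ring

lemma T31_succ (q g ρ : ℕ) (hq : 2 ≤ q) (f : ℕ → ℕ → ℕ → ENNReal) :
    T31 q g (ρ + 1) f = mu q 0 * f 0 0 0 +
      (q : ENNReal)⁻¹ * T31 q g ρ (fun a b c => f (a + 1) (b + 1) (c + 1)) := by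
  unfold T31
  rw [← Nat.add_assoc, S0_succ q ρ hq, S1_succ q ρ hq, S1_succ q (g + ρ) hq,
    S1_succ q (g + ρ) hq, mj_succ 2 q ρ hq, mj_succ 2 q (g + ρ) hq]
  have e : (∑' i : ℕ, if i + 1 < g then mu q (ρ + 1 + i + 1) *
      f (ρ + 1 + i + 1) (ρ + 1) (ρ + 1 + i + 1) else 0) =
      (q : ENNReal)⁻¹ * ∑' i : ℕ, if i + 1 < g then mu q (ρ + i + 1) *
        f (ρ + i + 1 + 1) (ρ + 1) (ρ + i + 1 + 1) else 0 := by
    rw [← ENNReal.tsum_mul_left]
    refine tsum_congr fun i => ?_
    have e1 : ρ + 1 + i + 1 = (ρ + i + 1) + 1 := by ring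
    by_cases h : i + 1 < g
    · rw [if_pos h, if_pos h, e1, mu_succ q _ hq, mul_assoc]
    · rw [if_neg h, if_neg h, mul_zero]
  rw [e]
  ring

lemma T31_const (q g ρ : ℕ) (hq : 2 ≤ q) (c : ENNReal) :
    T31 q (g + 1) ρ (fun _ _ _ => c) = c := by
  induction ρ with
  | zero =>
    rw [T31_zero q g hq, T2_const q g hq, ENNReal.tsum_mul_right, tsum_mu q hq]
    have h := mj_zero_eq 2 q hq hq
    calc mj 2 q 0 * c + (q : ENNReal)⁻¹ * (c + 1 * c) =
        (mj 2 q 0 + ((2 : ℕ) : ENNReal) * (q : ENNReal)⁻¹) * c := by push_cast; ring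
      _ = c := by rw [h, one_mul]
  | succ ρ ih =>
    rw [T31_succ q (g + 1) ρ hq, ih, ← mj_one]
    have h := mj_zero_eq 1 q hq (by omega)
    calc mj 1 q 0 * c + (q : ENNReal)⁻¹ * c =
        (mj 1 q 0 + ((1 : ℕ) : ENNReal) * (q : ENNReal)⁻¹) * c := by push_cast; ring
      _ = c := by rw [h, one_mul]

theorem three_centre1 (g ρ : ℕ) : ∀ (n : ℕ) (u v : R), IsUnit u → IsUnit v →
    ∀ f : ℕ → ℕ → ℕ → ENNReal,
    I D n (fun x => f (D.lev n x) (D.lev n (x + D.t ^ ρ * u))
      (D.lev n (x + D.t ^ (g + 1 + ρ) * v))) =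
      T31 D.q (g + 1) ρ (fun a b c => f (min a n) (min b n) (min c n)) := by
  have hq := D.two_le
  induction ρ with
  | zero =>
    intro n u v hu hv f
    rcases n with _ | n
    · simp only [lev_zero, Nat.min_zero]
      rw [I_const, T31_const _ _ _ hq]
    · have hF := per3 D (n := n + 1) f (D.t ^ 0 * u) (D.t ^ (g + 1 + 0) * v)
      simp only [pow_zero, one_mul, Nat.add_zero] at hF ⊢
      have hut : ¬ D.t ∣ u := D.not_dvd_iff.mpr hu
      have hdv : D.t ∣ D.t ^ (g + 1) * v := Dvd.dvd.mul_right (dvd_pow_self _ (Nat.succ_ne_zero g)) v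
      rw [split D hF (J := 2) ![0, -u] (by
        intro i j hij
        fin_cases i <;> fin_cases j
        · exact absurd rfl hij
        · simpa using hut
        · simpa using hut
        · exact absurd rfl hij) (f 0 0 0) (by
        intro x hx
        have h0 := hx 0
        have h1 := hx 1
        simp only [Matrix.cons_val_zero, sub_zero, Matrix.cons_val_one, sub_neg_eq_add] at h0 h1
        have h2 : ¬ D.t ∣ x + D.t ^ (g + 1) * v := fun h => h0 ((dvd_add_left hdv).mp h)
        simp only [lev_not D h0, lev_not D h1, lev_not D h2])]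
      rw [Fin.sum_univ_two, T31_zero _ _ hq]
      simp only [Matrix.cons_val_zero, Matrix.cons_val_one, Nat.zero_min, zero_add]
      have e1 : ∀ x, D.lev (n + 1) (D.t * x + u) = 0 := by
        intro x
        apply lev_not
        intro h
        exact hut ((dvd_add_right (Dvd.intro x rfl)).mp h)
      have e2 : ∀ x, D.lev (n + 1) (-u + D.t * x) = 0 := by
        intro x
        apply lev_not
        intro h
        have := (dvd_add_left (Dvd.intro x rfl)).mp h
        rw [dvd_neg] at this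
        exact hut this
      have e3 : ∀ x, -u + D.t * x + u = D.t * x := fun x => by ring
      have e4 : ∀ x, D.t * x + D.t ^ (g + 1) * v = D.t * (x + D.t ^ g * v) := fun x => by ring
      have e5 : ∀ x, D.lev (n + 1) (-u + D.t * x + D.t ^ (g + 1) * v) = 0 := by
        intro x
        apply lev_not
        intro h
        have h1 := (dvd_add_left hdv).mp h
        have := (dvd_add_left (Dvd.intro x rfl)).mp h1
        rw [dvd_neg] at this
        exact hut this
      simp only [e1, e2, e3, e4, e5, lev_succ]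
      rw [one_centre D n (fun j => f 0 (j + 1) 0),
        two_centre D g n v hv (fun a b => f (a + 1) 0 (b + 1))]
      simp only [Nat.add_min_add_right]
  | succ ρ ih =>
    intro n u v hu hv f
    rcases n with _ | n
    · simp only [lev_zero, Nat.min_zero]
      rw [I_const, T31_const _ _ _ hq]
    · have hF := per3 D (n := n + 1) f (D.t ^ (ρ + 1) * u) (D.t ^ (g + 1 + (ρ + 1)) * v)
      have hd : ∀ (k : ℕ) (w : R), D.t ∣ D.t ^ (k + 1) * w := fun k w =>
        Dvd.dvd.mul_right (dvd_pow_self _ (Nat.succ_ne_zero k)) w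
      rw [split D hF (J := 1) (fun _ => 0) (fun i j h => absurd (Subsingleton.elim i j) h)
        (f 0 0 0)
        (fun x hx => by
          have h0 := hx 0
          rw [sub_zero] at h0
          have h1 : ∀ (k : ℕ) (w : R), ¬ D.t ∣ x + D.t ^ (k + 1) * w :=
            fun k w h => h0 ((dvd_add_left (hd k w)).mp h)
          simp only [← Nat.add_assoc, lev_not D h0, lev_not D (h1 _ _)])]
      rw [Fin.sum_univ_one, mj_one, T31_succ _ _ _ hq]
      simp only [Nat.zero_min, zero_add]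
      have e3 : ∀ x, D.t * x + D.t ^ (ρ + 1) * u = D.t * (x + D.t ^ ρ * u) := fun x => by ring
      have e4 : ∀ x, D.t * x + D.t ^ (g + 1 + (ρ + 1)) * v = D.t * (x + D.t ^ (g + 1 + ρ) * v) :=
        fun x => by ring
      simp only [e3, e4, lev_succ]
      rw [ih n u v hu hv (fun a b c => f (a + 1) (b + 1) (c + 1))]
      simp only [Nat.add_min_add_right]

/-! ### Three centres, `v(a₁) = v(a₂) = v(a₁ - a₂) = ρ` -/

/-- distribution of `(v(x), v(x + a₁), v(x + a₂))` for `v(a₁) = v(a₂) = v(a₁ - a₂) = ρ` -/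
noncomputable def T3c (q ρ : ℕ) (f : ℕ → ℕ → ℕ → ENNReal) : ENNReal :=
  S0 q ρ (fun y => f y y y) + mj 3 q ρ * f ρ ρ ρ + S1 q ρ (fun y => f y ρ ρ) +
    S1 q ρ (fun y => f ρ y ρ) + S1 q ρ (fun y => f ρ ρ y)

lemma T3c_zero (q : ℕ) (hq : 2 ≤ q) (f : ℕ → ℕ → ℕ → ENNReal) :
    T3c q 0 f = mj 3 q 0 * f 0 0 0 + (q : ENNReal)⁻¹ *
      ((∑' t : ℕ, mu q t * f (t + 1) 0 0) + (∑' t : ℕ, mu q t * f 0 (t + 1) 0) +
        ∑' t : ℕ, mu q t * f 0 0 (t + 1)) := by
  unfold T3c
  rw [S0_zero, S1_zero q hq, S1_zero q hq, S1_zero q hq]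
  ring

lemma T3c_succ (q ρ : ℕ) (hq : 2 ≤ q) (f : ℕ → ℕ → ℕ → ENNReal) :
    T3c q (ρ + 1) f = mu q 0 * f 0 0 0 +
      (q : ENNReal)⁻¹ * T3c q ρ (fun a b c => f (a + 1) (b + 1) (c + 1)) := by
  unfold T3c
  rw [S0_succ q ρ hq, S1_succ q ρ hq, S1_succ q ρ hq, S1_succ q ρ hq, mj_succ 3 q ρ hq]
  ring

lemma T3c_const (q ρ : ℕ) (hq : 3 ≤ q) (c : ENNReal) : T3c q ρ (fun _ _ _ => c) = c := by
  induction ρ with
  | zero =>
    rw [T3c_zero q (by omega), ENNReal.tsum_mul_right, tsum_mu q (by omega)]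
    have h := mj_zero_eq 3 q (by omega) hq
    calc mj 3 q 0 * c + (q : ENNReal)⁻¹ * (1 * c + 1 * c + 1 * c) =
        (mj 3 q 0 + ((3 : ℕ) : ENNReal) * (q : ENNReal)⁻¹) * c := by push_cast; ring
      _ = c := by rw [h, one_mul]
  | succ ρ ih =>
    rw [T3c_succ q ρ (by omega), ih, ← mj_one]
    have h := mj_zero_eq 1 q (by omega) (by omega)
    calc mj 1 q 0 * c + (q : ENNReal)⁻¹ * c =
        (mj 1 q 0 + ((1 : ℕ) : ENNReal) * (q : ENNReal)⁻¹) * c := by push_cast; ring
      _ = c := by rw [h, one_mul]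

theorem three_centrec (hq3 : 3 ≤ D.q) (ρ : ℕ) : ∀ (n : ℕ) (u v : R), IsUnit u → IsUnit v →
    IsUnit (u - v) → ∀ f : ℕ → ℕ → ℕ → ENNReal,
    I D n (fun x => f (D.lev n x) (D.lev n (x + D.t ^ ρ * u))
      (D.lev n (x + D.t ^ ρ * v))) =
      T3c D.q ρ (fun a b c => f (min a n) (min b n) (min c n)) := by
  have hq := D.two_le
  induction ρ with
  | zero =>
    intro n u v hu hv huv f
    rcases n with _ | n
    · simp only [lev_zero, Nat.min_zero]
      rw [I_const, T3c_const _ _ hq3]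
    · have hF := per3 D (n := n + 1) f (D.t ^ 0 * u) (D.t ^ 0 * v)
      simp only [pow_zero, one_mul] at hF ⊢
      have hut : ¬ D.t ∣ u := D.not_dvd_iff.mpr hu
      have hvt : ¬ D.t ∣ v := D.not_dvd_iff.mpr hv
      have huvt : ¬ D.t ∣ u - v := D.not_dvd_iff.mpr huv
      have hvut : ¬ D.t ∣ v - u := by rw [← neg_sub, dvd_neg]; exact huvt
      rw [split D hF (J := 3) ![0, -u, -v] (by
        intro i j hij
        fin_cases i <;> fin_cases j
        · exact absurd rfl hij
        · simpa using hut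
        · simpa using hvt
        · simpa using hut
        · exact absurd rfl hij
        · simpa [neg_add_eq_sub] using hvut
        · simpa using hvt
        · simpa [neg_add_eq_sub] using huvt
        · exact absurd rfl hij) (f 0 0 0) (by
        intro x hx
        have h0 : ¬ D.t ∣ x := by simpa using hx 0
        have h1 : ¬ D.t ∣ x + u := by simpa using hx 1
        have h2 : ¬ D.t ∣ x + v := by simpa using hx 2
        simp only [lev_not D h0, lev_not D h1, lev_not D h2])]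
      rw [Fin.sum_univ_three, T3c_zero _ hq]
      simp only [Matrix.cons_val_zero, Matrix.cons_val_one, Matrix.cons_val, Nat.zero_min, zero_add]
      have e0 : ∀ x w, ¬ D.t ∣ w → D.lev (n + 1) (D.t * x + w) = 0 := by
        intro x w hw
        apply lev_not
        intro h
        exact hw ((dvd_add_right (Dvd.intro x rfl)).mp h)
      have e1 : ∀ x, D.lev (n + 1) (D.t * x + u) = 0 := fun x => e0 x u hut
      have e1' : ∀ x, D.lev (n + 1) (D.t * x + v) = 0 := fun x => e0 x v hvt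
      have e2 : ∀ x, D.lev (n + 1) (-u + D.t * x) = 0 := by
        intro x
        rw [add_comm (-u)]
        exact e0 x (-u) (by rw [dvd_neg]; exact hut)
      have e2' : ∀ x, D.lev (n + 1) (-v + D.t * x) = 0 := by
        intro x
        rw [add_comm (-v)]
        exact e0 x (-v) (by rw [dvd_neg]; exact hvt)
      have e3 : ∀ x, D.lev (n + 1) (-u + D.t * x + v) = 0 := by
        intro x
        have e : -u + D.t * x + v = D.t * x + (v - u) := by ring
        rw [e]
        exact e0 x (v - u) hvut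
      have e3' : ∀ x, D.lev (n + 1) (-v + D.t * x + u) = 0 := by
        intro x
        have e : -v + D.t * x + u = D.t * x + (u - v) := by ring
        rw [e]
        exact e0 x (u - v) huvt
      have e4 : ∀ x, -u + D.t * x + u = D.t * x := fun x => by ring
      have e4' : ∀ x, -v + D.t * x + v = D.t * x := fun x => by ring
      simp only [e1, e1', e2, e2', e3, e3', e4, e4', lev_succ]
      rw [one_centre D n (fun j => f (j + 1) 0 0), one_centre D n (fun j => f 0 (j + 1) 0),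
        one_centre D n (fun j => f 0 0 (j + 1))]
      simp only [Nat.add_min_add_right]
  | succ ρ ih =>
    intro n u v hu hv huv f
    rcases n with _ | n
    · simp only [lev_zero, Nat.min_zero]
      rw [I_const, T3c_const _ _ hq3]
    · have hF := per3 D (n := n + 1) f (D.t ^ (ρ + 1) * u) (D.t ^ (ρ + 1) * v)
      have hd : ∀ (w : R), D.t ∣ D.t ^ (ρ + 1) * w := fun w =>
        Dvd.dvd.mul_right (dvd_pow_self _ (Nat.succ_ne_zero ρ)) w
      rw [split D hF (J := 1) (fun _ => 0) (fun i j h => absurd (Subsingleton.elim i j) h)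
        (f 0 0 0)
        (fun x hx => by
          have h0 := hx 0
          rw [sub_zero] at h0
          have h1 : ∀ (w : R), ¬ D.t ∣ x + D.t ^ (ρ + 1) * w :=
            fun w h => h0 ((dvd_add_left (hd w)).mp h)
          simp only [lev_not D h0, lev_not D (h1 _)])]
      rw [Fin.sum_univ_one, mj_one, T3c_succ _ _ hq]
      simp only [Nat.zero_min, zero_add]
      have e3 : ∀ x w, D.t * x + D.t ^ (ρ + 1) * w = D.t * (x + D.t ^ ρ * w) :=
        fun x w => by ring
      simp only [e3, lev_succ]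
      rw [ih n u v hu hv huv (fun a b c => f (a + 1) (b + 1) (c + 1))]
      simp only [Nat.add_min_add_right]

/-! ### The two sums -/

/-- the integrand of `E1` -/
lemma E1_eq (q g h n : ℕ) (G : ℕ → ℕ → ℕ → ℕ → ENNReal) :
    E1 q g h (cap n G) = ∑' t : ℕ, mu q t *
      T31 q g (h + t) (fun Y X Z => cap n G (min t Y) Y X Z) := by
  unfold E1 T31 S0 S1
  refine tsum_congr fun t => ?_
  have h1 : min t (h + t) = t := by omega
  have h2 : ∀ i, min t (h + t + i + 1) = t := fun i => by omega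
  have h3 : min t (g + (h + t)) = t := by omega
  have h4 : ∀ i, min t (g + (h + t) + i + 1) = t := fun i => by omega
  have h5 : g + h + t = g + (h + t) := by omega
  simp only [h1, h2, h3, h4, h5]

/-- the integrand of `Ec` -/
lemma Ec_eq (q h n : ℕ) (G : ℕ → ℕ → ℕ → ℕ → ENNReal) :
    Ec q h (cap n G) = ∑' t : ℕ, mu q t *
      T3c q (h + t) (fun Y X Z => cap n G (min t Y) Y X Z) := by
  unfold Ec T3c S0 S1
  refine tsum_congr fun t => ?_
  have h1 : min t (h + t) = t := by omega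
  have h2 : ∀ i, min t (h + t + i + 1) = t := fun i => by omega
  simp only [h1, h2]

lemma cap_fun (n t : ℕ) (G : ℕ → ℕ → ℕ → ℕ → ENNReal) :
    (fun Y X Z => cap n G (min t Y) Y X Z) =
      (fun a b c => G (min (min t (min a n)) n) (min a n) (min b n) (min c n)) := by
  funext Y X Z
  unfold cap
  rw [min_aux]

lemma lev_far (n k : ℕ) (hk : n ≤ k) (x u : R) : D.lev n (x + D.t ^ k * u) = D.lev n x := by
  apply lev_congr
  have e : x + D.t ^ k * u - x = D.t ^ k * u := by ring
  rw [e]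
  exact (pow_dvd_pow _ hk).trans (Dvd.intro _ rfl)

lemma T31_cap (g h n t : ℕ) (G : ℕ → ℕ → ℕ → ℕ → ENNReal) :
    T31 D.q (g + 1) (h + t) (fun Y X Z => cap n G (min t Y) Y X Z) =
      T31 D.q (g + 1) (h + min t n) (fun Y X Z => cap n G (min (min t n) Y) Y X Z) := by
  rcases le_total t n with ht | ht
  · rw [min_eq_left ht]
  · rw [min_eq_right ht]
    have key : ∀ s, n ≤ s → T31 D.q (g + 1) (h + s) (fun Y X Z => cap n G (min s Y) Y X Z) =
        I D n (fun x => G (D.lev n x) (D.lev n x) (D.lev n x) (D.lev n x)) := by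
      intro s hs
      have h1 := three_centre1 D g (h + s) n 1 1 isUnit_one isUnit_one
        (fun Y X Z => G (min (min s Y) n) Y X Z)
      rw [cap_fun, ← h1]
      apply I_congr
      intro x
      have hx := D.lev_le n x
      have e2 : min (min s (D.lev n x)) n = D.lev n x := by omega
      rw [lev_far D n _ (by omega), lev_far D n _ (by omega), e2]
    rw [key t ht, key n le_rfl]

lemma T3c_cap (hq3 : 3 ≤ D.q) (u v : R) (hu : IsUnit u) (hv : IsUnit v) (huv : IsUnit (u - v))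
    (h n t : ℕ) (G : ℕ → ℕ → ℕ → ℕ → ENNReal) :
    T3c D.q (h + t) (fun Y X Z => cap n G (min t Y) Y X Z) =
      T3c D.q (h + min t n) (fun Y X Z => cap n G (min (min t n) Y) Y X Z) := by
  rcases le_total t n with ht | ht
  · rw [min_eq_left ht]
  · rw [min_eq_right ht]
    have key : ∀ s, n ≤ s → T3c D.q (h + s) (fun Y X Z => cap n G (min s Y) Y X Z) =
        I D n (fun x => G (D.lev n x) (D.lev n x) (D.lev n x) (D.lev n x)) := by
      intro s hs
      have h1 := three_centrec D hq3 (h + s) n u v hu hv huv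
        (fun Y X Z => G (min (min s Y) n) Y X Z)
      rw [cap_fun, ← h1]
      apply I_congr
      intro x
      have hx := D.lev_le n x
      have e2 : min (min s (D.lev n x)) n = D.lev n x := by omega
      rw [lev_far D n _ (by omega), lev_far D n _ (by omega), e2]
    rw [key t ht, key n le_rfl]

/-- the level of `t^h w + α y` in terms of `y + t^(h + lev w) a` -/
lemma lev_form (n h : ℕ) (w y : R) (α u : Rˣ) (hu : D.t ^ n ∣ w - D.t ^ (D.lev n w) * u) :
    D.lev n (D.t ^ h * w + (α : R) * y) =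
      D.lev n (y + D.t ^ (h + D.lev n w) * ((↑α⁻¹ : R) * u)) := by
  rw [← lev_mul_unit D α.isUnit (a := y + D.t ^ (h + D.lev n w) * ((↑α⁻¹ : R) * u))]
  apply lev_congr
  have hk : (α : R) * (↑α⁻¹ : R) = 1 := Units.mul_inv α
  have e : D.t ^ h * w + (α : R) * y -
      (α : R) * (y + D.t ^ (h + D.lev n w) * ((↑α⁻¹ : R) * u)) =
      D.t ^ h * (w - D.t ^ (D.lev n w) * u) := by
    rw [pow_add]
    linear_combination (- D.t ^ h * D.t ^ (D.lev n w) * u) * hk
  rw [e]
  exact Dvd.dvd.mul_left hu _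

theorem d1 : D1Stmt := by
  intro R _ _ D n g h α β hg hh hα hβ G
  obtain ⟨α, rfl⟩ := hα
  obtain ⟨β, rfl⟩ := hβ
  obtain ⟨g, rfl⟩ : ∃ g', g = g' + 1 := ⟨g - 1, by omega⟩
  unfold TS
  have inner : ∀ w : R, ∑ τ₂ : D.Q n, G (min (D.lev n w)
      (D.lev n (D.lift τ₂))) (D.lev n (D.lift τ₂))
      (D.lev n (D.t ^ h * w + (α : R) * D.lift τ₂))
      (D.lev n (D.t ^ (g + 1 + h) * w + (β : R) * D.lift τ₂)) =
      (D.q : ENNReal) ^ n * T31 D.q (g + 1) (h + D.lev n w)
        (fun Y X Z => cap n G (min (D.lev n w) Y) Y X Z) := by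
    intro w
    obtain ⟨u, hu⟩ := D.lev_unit n w
    have hw := D.lev_le n w
    have h1 := three_centre1 D g (h + D.lev n w) n ((↑α⁻¹ : R) * u) ((↑β⁻¹ : R) * u)
      (α⁻¹.isUnit.mul u.isUnit) (β⁻¹.isUnit.mul u.isUnit)
      (fun Y X Z => G (min (min (D.lev n w) Y) n) Y X Z)
    rw [cap_fun, ← h1, ← sum_eq]
    refine Finset.sum_congr rfl fun τ₂ _ => ?_
    have hyl := D.lev_le n (D.lift τ₂)
    have e3 : min (min (D.lev n w) (D.lev n (D.lift τ₂))) n =
      min (D.lev n w) (D.lev n (D.lift τ₂)) := by omega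
    rw [lev_form D n h w _ α u hu, lev_form D n (g + 1 + h) w _ β u hu, e3, Nat.add_assoc]
  simp only [inner]
  rw [← Finset.mul_sum, sum_eq D n (fun w => T31 D.q (g + 1) (h + D.lev n w)
        (fun Y X Z => cap n G (min (D.lev n w) Y) Y X Z)),
    one_centre D n (fun t => T31 D.q (g + 1) (h + t) (fun Y X Z => cap n G (min t Y) Y X Z)),
    E1_eq, ← mul_assoc, ← pow_add, ← two_mul]
  congr 1
  refine tsum_congr fun t => ?_
  rw [← T31_cap]

theorem dc : DcStmt := by
  intro R _ _ D n h α β hh hq3 hα hβ hαβ G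
  obtain ⟨α, rfl⟩ := hα
  obtain ⟨β, rfl⟩ := hβ
  have hdiff : ∀ u : Rˣ, IsUnit ((↑α⁻¹ : R) * u - (↑β⁻¹ : R) * u) := by
    intro u
    have e : (↑α⁻¹ : R) * u - (↑β⁻¹ : R) * u = (↑α⁻¹ : R) * ↑β⁻¹ * u * ((β : R) - α) := by
      have h1 : (α : R) * (↑α⁻¹ : R) = 1 := Units.mul_inv α
      have h2 : (β : R) * (↑β⁻¹ : R) = 1 := Units.mul_inv β
      linear_combination (↑β⁻¹ : R) * (u : R) * h1 - (↑α⁻¹ : R) * (u : R) * h2
    rw [e]
    exact (((α⁻¹.isUnit.mul β⁻¹.isUnit).mul u.isUnit).mul hαβ)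
  unfold TS
  have inner : ∀ w : R, ∑ τ₂ : D.Q n, G (min (D.lev n w)
      (D.lev n (D.lift τ₂))) (D.lev n (D.lift τ₂))
      (D.lev n (D.t ^ h * w + (α : R) * D.lift τ₂))
      (D.lev n (D.t ^ h * w + (β : R) * D.lift τ₂)) =
      (D.q : ENNReal) ^ n * T3c D.q (h + D.lev n w)
        (fun Y X Z => cap n G (min (D.lev n w) Y) Y X Z) := by
    intro w
    obtain ⟨u, hu⟩ := D.lev_unit n w
    have hw := D.lev_le n w
    have h1 := three_centrec D hq3 (h + D.lev n w) n ((↑α⁻¹ : R) * u) ((↑β⁻¹ : R) * u)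
      (α⁻¹.isUnit.mul u.isUnit) (β⁻¹.isUnit.mul u.isUnit) (hdiff u)
      (fun Y X Z => G (min (min (D.lev n w) Y) n) Y X Z)
    rw [cap_fun, ← h1, ← sum_eq]
    refine Finset.sum_congr rfl fun τ₂ _ => ?_
    have hyl := D.lev_le n (D.lift τ₂)
    have e3 : min (min (D.lev n w) (D.lev n (D.lift τ₂))) n =
      min (D.lev n w) (D.lev n (D.lift τ₂)) := by omega
    rw [lev_form D n h w _ α u hu, lev_form D n h w _ β u hu, e3]
  simp only [inner]
  rw [← Finset.mul_sum, sum_eq D n (fun w => T3c D.q (h + D.lev n w)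
        (fun Y X Z => cap n G (min (D.lev n w) Y) Y X Z)),
    one_centre D n (fun t => T3c D.q (h + t) (fun Y X Z => cap n G (min t Y) Y X Z)),
    Ec_eq, ← mul_assoc, ← pow_add, ← two_mul]
  congr 1
  refine tsum_congr fun t => ?_
  rw [← T3c_cap D hq3 _ _ (α⁻¹.isUnit.mul (1 : Rˣ).isUnit) (β⁻¹.isUnit.mul (1 : Rˣ).isUnit) (hdiff 1)]

end Pool.Agent.TH395.TZ
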