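import Pool.Agent.TH395.TZH_S3b
import Pool.Agent.TH395.TZH_S3cc

/-!
Assembly of the blocks.
-/

set_option autoImplicit false

namespace Pool.Agent.TH395.TZS

open Pool.Agent.TH32

lemma bsum_append (q : ℕ) (x : ℝ) (L L' : List Blk) :
    bsum q x (L ++ L') = bsum q x L + bsum q x L' := by
  unfold bsum
  rw [List.map_append, List.sum_append]

lemma kap_two (q : ℝ) (u u2 u3 : ℕ) :
    ENNReal.ofReal (kap q 2 u u2 u3) = 2 * ENNReal.ofReal (kap q 1 u u2 u3) := by
  have e : kap q 2 u u2 u3 = 2 * kap q 1 u u2 u3 := by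
    unfold kap
    push_cast
    ring
  rw [e, ENNReal.ofReal_mul (by norm_num)]
  congr 1
  norm_num

lemma bsum_L0 (q : ℕ) (x : ℝ) : bsum q x (L0 legd 2) = 2 * bsum q x (L0 legd 1) := by
  simp only [bsum, L0, legd, List.map, List.sum_cons, List.sum_nil, Blk.sum, kap_two]
  ring

lemma bsum_L1 (q : ℕ) (x : ℝ) : bsum q x (L1 legd 2) = 2 * bsum q x (L1 legd 1) := by
  simp only [bsum, L1, legd, List.map, List.sum_cons, List.sum_nil, Blk.sum, kap_two]
  ring

theorem s3 : S3c0Stmt → S3d0Stmt → S3e0Stmt → S3d1Stmt → S3e1Stmt → S3cStmt → S3Stmt := by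
  intro hc0 hd0 he0 hd1 he1 hc q x hq hx
  unfold blks
  rw [bsum_append, bsum_append, bsum_append, bsum_append, bsum_append, bsum_L0, bsum_L1,
    ← hc0 q x hq hx, ← hd0 q x hq hx, ← he0 q x hq hx, ← hd1 q x hq hx, ← he1 q x hq hx,
    ← hc q x hq hx]
  unfold ZS
  simp only [← ENNReal.tsum_mul_left, ← ENNReal.tsum_add]
  refine tsum_congr fun b => tsum_congr fun m => tsum_congr fun n => ?_
  simp only [wbmn, mul_add, ENNReal.tsum_add, ENNReal.tsum_mul_left, mul_left_comm _ (2 : ENNReal)]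
  ring

end Pool.Agent.TH395.TZS
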