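import Pool.Agent.TH395.AF_BALL

/-!
The two estimates behind the Abramov-Rohlin formula for the f-invariant.
-/

set_option autoImplicit false
set_option linter.unusedSectionVars false

namespace Pool.Agent.TH395.AFB

open MeasureTheory Set Filter Pool.Agent.TH722.FI Pool.Agent.TH722.AF Pool.Agent.TH480.FI
open scoped Topology ENNReal

variable {r : ℕ} {X : Type*} [MeasurableSpace X] {μ : Measure X} [IsProbabilityMeasure μ]
  {α β γ : Type*}

theorem finer_pair_left {a : X → α} {b : X → β} (h : Finer a b) (c : X → γ) :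
    Finer (fun x => (a x, c x)) (fun x => (b x, c x)) := by
  intro x y hxy
  rw [Prod.mk.injEq] at hxy ⊢
  exact ⟨h x y hxy.1, hxy.2⟩

theorem finer_pair_right {a : X → α} {b : X → β} (h : Finer a b) (c : X → γ) :
    Finer (fun x => (c x, a x)) (fun x => (c x, b x)) := by
  intro x y hxy
  rw [Prod.mk.injEq] at hxy ⊢
  exact ⟨hxy.1, h x y hxy.2⟩

theorem finer_swap (a : X → α) (b : X → β) :
    Finer (fun x => (a x, b x)) (fun x => (b x, a x)) := by
  intro x y hxy
  rw [Prod.mk.injEq] at hxy ⊢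
  exact ⟨hxy.2, hxy.1⟩

theorem finer_fst (a : X → α) (b : X → β) : Finer (fun x => (a x, b x)) a :=
  fun _ _ h => congrArg Prod.fst h

theorem finer_snd (a : X → α) (b : X → β) : Finer (fun x => (a x, b x)) b :=
  fun _ _ h => congrArg Prod.snd h

theorem ent_pair_ge {a : X → α} {b : X → β} (ha : IsLab μ a) (hb : IsLab μ b) :
    0 ≤ ent μ (fun x => (a x, b x)) - ent μ a := by
  have := (lab_of_finer (lab_pair ha hb).1 (finer_fst a b)).2
  linarith

/-- an `ℕ`-valued label with the same partition -/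
theorem exists_nat_label {L : X → α} (hL : IsLab μ L) :
    ∃ c : X → ℕ, IsLab μ c ∧ Finer c L ∧ Finer L c := by
  have : Countable (range L) := hL.cnt.to_subtype
  obtain ⟨f, hf⟩ := exists_injective_nat (range L)
  have h1 : Finer L (fun x => f ⟨L x, mem_range_self x⟩) := by
    intro x y h
    have : (⟨L x, mem_range_self x⟩ : range L) = ⟨L y, mem_range_self y⟩ := Subtype.ext h
    exact congrArg f this
  refine ⟨fun x => f ⟨L x, mem_range_self x⟩, (lab_of_finer hL h1).1, ?_, h1⟩
  intro x y h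
  exact congrArg Subtype.val (hf h)

/-- `EGen` for arbitrary labels -/
theorem EGen.gen {P : ℕ → Type*} {p : ∀ n, X → P n} (hg : EGen μ p) {L : X → α} (hL : IsLab μ L)
    {ε : ℝ} (hε : 0 < ε) : ∃ n0, ∀ n ≥ n0, ent μ (fun x => (p n x, L x)) - ent μ (p n) ≤ ε := by
  obtain ⟨c, hc, h1, h2⟩ := exists_nat_label hL
  obtain ⟨n0, h⟩ := hg c hc ε hε
  refine ⟨n0, fun n hn => ?_⟩
  have := h n hn
  rwa [ent_congr (finer_pair_right h1 (p n)) (finer_pair_right h2 (p n))] at this

/-- `(2r-1) H ≤ ε` when `H ≤ ε / (2r+1)` -/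
theorem two_r_bound (r : ℕ) {H ε : ℝ} (hH : 0 ≤ H) (h : H ≤ ε / (2 * (r : ℝ) + 1)) :
    (2 * (r : ℝ) - 1) * H ≤ ε := by
  have hr : (0 : ℝ) ≤ r := Nat.cast_nonneg r
  rw [le_div_iff₀ (by positivity)] at h
  nlinarith

theorem abramov_rohlin (T : FreeGroup (Fin r) → X → X) (hT : PmpAct μ T) {l : X → α}
    (hl : IsLab μ l) {q : X → γ} (hq : IsLab μ q) (hg : EGen μ (fun n x => ballLab T l n x)) :
    (∀ n k : ℕ, ∀ ε > 0, ∃ n', BF μ T (ballLab T l n') ≤
      BF μ T (fun x => (ballLab T l n x, ballLab T q k x)) + ε) ∧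
    (∀ n : ℕ, ∀ ε > 0, ∃ n', ∀ m : ℕ,
      BF μ T (fun x => (ballLab T l n' x, ballLab T q m x)) ≤ BF μ T (ballLab T l n) + ε) := by
  constructor
  · intro n k ε hε
    have hL : IsLab μ (fun x => (ballLab T l n x, ballLab T q k x)) :=
      (lab_pair (ball_isLab T hT hl n) (ball_isLab T hT hq k)).1
    obtain ⟨n0, h0⟩ := EGen.gen hg hL (ε := ε / (2 * (r : ℝ) + 1)) (by positivity)
    have h1 := h0 n0 le_rfl
    have hb := ball_isLab T hT hl n0
    refine ⟨n0, ?_⟩
    have h2 := bf_cont T hT hL hb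
    have h3 := two_r_bound r (ent_pair_ge hb hL) h1
    have h4 := ball_split T hT hL (c := l)
      (finer_trans (finer_fst _ _) (ball_finer_self T hT.one l n)) n0
    rw [bf_congr T (finer_swap _ _) (finer_swap _ _)] at h4
    linarith
  · intro n ε hε
    obtain ⟨n0, h0⟩ := EGen.gen hg hq hε
    have h1 := h0 (max n n0) (le_max_right _ _)
    refine ⟨max n n0, fun m => ?_⟩
    generalize hn' : max n n0 = n' at *
    have hnn : n ≤ n' := by rw [← hn']; exact le_max_left _ _
    have hb := ball_isLab T hT hl n'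
    have h2 := ball_split T hT (lab_pair hb hq).1 (c := q) (finer_snd _ _) m
    have h3 := bf_join T hT hb hq
    have h4 := ball_split T hT (ball_isLab T hT hl n) (c := l) (ball_finer_self T hT.one l n) n'
    have h5 : BF μ T (fun x => (ballLab T l n x, ballLab T l n' x)) = BF μ T (ballLab T l n') := by
      refine bf_congr T (finer_snd _ _) ?_
      intro x y h
      exact Prod.ext (ball_finer T l hnn x y h) h
    have h6 : BF μ T (fun x => ((ballLab T l n' x, q x), ballLab T q m x)) =
        BF μ T (fun x => (ballLab T l n' x, ballLab T q m x)) := by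
      refine bf_congr T ?_ ?_
      · intro x y h
        simp only [Prod.mk.injEq] at h ⊢
        exact ⟨h.1.1, h.2⟩
      · intro x y h
        simp only [Prod.mk.injEq] at h ⊢
        exact ⟨⟨h.1, ball_finer_self T hT.one q m x y h.2⟩, h.2⟩
    rw [h5] at h4
    rw [h6] at h2
    linarith

end Pool.Agent.TH395.AFB
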