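import Pool.Agent.TH722.AF.Defs
import Pool.Agent.TH480.FI.FI_LAB
import Pool.Agent.TH722.AF.Base

/-!
Ball labels, splitting over balls, continuity of Bowen's functional.
-/

set_option autoImplicit false
set_option linter.unusedSectionVars false

namespace Pool.Agent.TH395.AFB

open MeasureTheory Set Filter Pool.Agent.TH722.FI Pool.Agent.TH722.AF Pool.Agent.TH480.FI
open scoped Topology ENNReal

variable {r : ℕ} {X : Type*} [MeasurableSpace X] {μ : Measure X}
  {α β γ : Type*}

theorem finer_refl (a : X → α) : Finer a a := fun _ _ h => h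

theorem finer_trans {a : X → α} {b : X → β} {c : X → γ} (h1 : Finer a b) (h2 : Finer b c) :
    Finer a c := fun x y h => h2 x y (h1 x y h)

theorem mass_congr {a : X → α} {b : X → β} (h1 : Finer a b) (h2 : Finer b a) :
    mass μ a = mass μ b := by
  funext x
  unfold mass
  congr 1
  ext y
  exact ⟨fun h => h1 y x h, fun h => h2 y x h⟩

theorem ent_congr {a : X → α} {b : X → β} (h1 : Finer a b) (h2 : Finer b a) :
    ent μ a = ent μ b := by
  unfold ent info
  rw [mass_congr h1 h2]

theorem finer_act (S : X → X) {a : X → α} {b : X → β} (h1 : Finer a b) :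
    Finer (fun x => (a x, a (S x))) (fun x => (b x, b (S x))) := by
  intro x y h
  rw [Prod.mk.injEq] at h ⊢
  exact ⟨h1 x y h.1, h1 _ _ h.2⟩

theorem bf_congr (T : FreeGroup (Fin r) → X → X) {a : X → α} {b : X → β} (h1 : Finer a b)
    (h2 : Finer b a) : BF μ T a = BF μ T b := by
  unfold BF
  rw [ent_congr h1 h2]
  congr 1
  refine Finset.sum_congr rfl fun i _ => ?_
  exact ent_congr (finer_act _ h1) (finer_act _ h2)

theorem ball_finite (r n : ℕ) : Finite {k : FreeGroup (Fin r) // k.norm ≤ n} := by
  have h : Set.Finite {l : List (Fin r × Bool) | l.length ≤ n} := List.finite_length_le _ _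
  have : Finite {l : List (Fin r × Bool) // l.length ≤ n} := h
  refine Finite.of_injective (fun k : {k : FreeGroup (Fin r) // k.norm ≤ n} =>
    (⟨k.1.toWord, k.2⟩ : {l : List (Fin r × Bool) // l.length ≤ n})) ?_
  intro a b h
  apply Subtype.ext
  apply FreeGroup.toWord_injective
  exact congrArg Subtype.val h

section prob
variable [IsProbabilityMeasure μ]

theorem lab_fin_prod {ι : Type*} (a : ι → X → α) (ha : ∀ i, IsLab μ (a i)) (s : Finset ι) :
    IsLab μ (fun x => fun i : s => a i x) := by
  classical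
  induction s using Finset.induction_on with
  | empty =>
    refine lab_finite ?_ (Set.toFinite _)
    intro c
    have : {x : X | (fun i : (∅ : Finset ι) => a i x) = c} = Set.univ := by
      ext x
      simp only [mem_ofPred_eq, mem_univ, iff_true]
      funext i
      exact absurd i.2 (Finset.notMem_empty _)
    rw [this]
    exact MeasurableSet.univ
  | insert j s hj ih =>
    refine (lab_of_finer (lab_pair (ha j) ih).1 ?_).1
    intro x y h
    rw [Prod.mk.injEq] at h
    funext i
    rcases Finset.mem_insert.1 i.2 with h1 | h1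
    · have h2 := h.1
      rw [← h1] at h2
      exact h2
    · exact congrFun h.2 ⟨i.1, h1⟩

theorem lab_prod {ι : Type*} [Finite ι] (a : ι → X → α) (ha : ∀ i, IsLab μ (a i)) :
    IsLab μ (fun x => fun i => a i x) := by
  have := Fintype.ofFinite ι
  refine (lab_of_finer (lab_fin_prod a ha Finset.univ) ?_).1
  intro x y h
  funext i
  exact congrFun h ⟨i, Finset.mem_univ i⟩

theorem ball_isLab (T : FreeGroup (Fin r) → X → X) (hT : PmpAct μ T) {c : X → γ} (hc : IsLab μ c)
    (n : ℕ) : IsLab μ (ballLab T c n) := by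
  have := ball_finite r n
  exact lab_prod (fun (k : {k : FreeGroup (Fin r) // k.norm ≤ n}) x => c (T k.1⁻¹ x))
    (fun k => (lab_comp (hT.mp k.1⁻¹) hc).1)

end prob

theorem ball_finer (T : FreeGroup (Fin r) → X → X) (c : X → γ) {m n : ℕ} (hmn : m ≤ n) :
    Finer (ballLab T c n) (ballLab T c m) := by
  intro x y h
  funext k
  exact congrFun h ⟨k.1, k.2.trans hmn⟩

theorem ball_finer_self (T : FreeGroup (Fin r) → X → X) (h1 : ∀ x, T 1 x = x) (c : X → γ) (n : ℕ) :
    Finer (ballLab T c n) c := by
  intro x y h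
  have := congrFun h ⟨1, by simp⟩
  simpa [ballLab, h1] using this

theorem finer_ball_zero (T : FreeGroup (Fin r) → X → X) (h1 : ∀ x, T 1 x = x) (c : X → γ) :
    Finer c (ballLab T c 0) := by
  intro x y h
  funext k
  have hk : k.1 = 1 := by
    have := k.2
    rw [Nat.le_zero, FreeGroup.norm_eq_zero] at this
    exact this
  simp only [ballLab, hk, inv_one, h1, h]

theorem ball_lab [IsProbabilityMeasure μ] (T : FreeGroup (Fin r) → X → X) (hT : PmpAct μ T)
    {c : X → γ} (hc : IsLab μ c)
    (n : ℕ) : IsLab μ (ballLab T c n) ∧ Finer (ballLab T c (n + 1)) (ballLab T c n) ∧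
      Finer (ballLab T c n) c ∧ ent μ (ballLab T c 0) = ent μ c :=
  ⟨ball_isLab T hT hc n, ball_finer T c n.le_succ, ball_finer_self T hT.one c n,
    ent_congr (ball_finer_self T hT.one c 0) (finer_ball_zero T hT.one c)⟩

/-- the generator (or its inverse) of index `s` -/
def gen (s : Fin r × Bool) : FreeGroup (Fin r) := FreeGroup.mk [s]

theorem gen_true (i : Fin r) : gen (i, true) = FreeGroup.of i := rfl

theorem gen_false (i : Fin r) : gen (i, false) = (FreeGroup.of i)⁻¹ := by
  simp [gen, FreeGroup.of, FreeGroup.inv_mk, FreeGroup.invRev]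

theorem gen_inv (s : Fin r × Bool) : (gen s)⁻¹ = gen (s.1, !s.2) := by
  simp [gen, FreeGroup.inv_mk, FreeGroup.invRev]

theorem norm_gen (s : Fin r × Bool) : (gen s).norm ≤ 1 := by
  have := FreeGroup.norm_mk_le (L₁ := [s])
  simpa [gen] using this

theorem exists_decomp {n : ℕ} (k : FreeGroup (Fin r)) (hk : k.norm ≤ n + 1) :
    k.norm ≤ n ∨ ∃ s : Fin r × Bool, ∃ h : FreeGroup (Fin r), h.norm ≤ n ∧ k = gen s * h := by
  rcases e : k.toWord with _ | ⟨s, L⟩
  · left
    have : k.norm = 0 := by rw [FreeGroup.norm, e]; rfl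
    omega
  · right
    refine ⟨s, FreeGroup.mk L, ?_, ?_⟩
    · have h1 := FreeGroup.norm_mk_le (L₁ := L)
      have h2 : k.norm = L.length + 1 := by rw [FreeGroup.norm, e]; rfl
      omega
    · rw [gen, FreeGroup.mul_mk]
      have := FreeGroup.mk_toWord (x := k)
      rw [e] at this
      exact this.symm

/-- the label `l`, the ball label, and the ball labels shifted by a set of generators -/
def lS (T : FreeGroup (Fin r) → X → X) (l : X → α) (c : X → γ) (n : ℕ)
    (S : Finset (Fin r × Bool)) (x : X) :
    (α × ({k : FreeGroup (Fin r) // k.norm ≤ n} → γ)) ×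
      (S → ({k : FreeGroup (Fin r) // k.norm ≤ n} → γ)) :=
  ((l x, ballLab T c n x), fun s => ballLab T c n (T (gen s) x))

theorem lS_isLab [IsProbabilityMeasure μ] (T : FreeGroup (Fin r) → X → X) (hT : PmpAct μ T)
    {l : X → α} (hl : IsLab μ l) {c : X → γ} (hc : IsLab μ c) (n : ℕ)
    (S : Finset (Fin r × Bool)) : IsLab μ (lS T l c n S) := by
  refine (lab_pair (lab_pair hl (ball_isLab T hT hc n)).1 ?_).1
  exact lab_fin_prod (fun (s : Fin r × Bool) x => ballLab T c n (T (gen s) x))
    (fun s => (lab_comp (hT.mp (gen s)) (ball_isLab T hT hc n)).1) S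

theorem lS_bf [IsProbabilityMeasure μ] (T : FreeGroup (Fin r) → X → X) (hT : PmpAct μ T)
    {l : X → α} (hl : IsLab μ l) {c : X → γ} (hc : IsLab μ c) (n : ℕ)
    (S : Finset (Fin r × Bool)) :
    BF μ T (lS T l c n S) ≤ BF μ T (fun x => (l x, ballLab T c n x)) := by
  classical
  induction S using Finset.induction_on with
  | empty =>
    refine le_of_eq (bf_congr T ?_ ?_)
    · intro x y h
      exact congrArg Prod.fst h
    · intro x y h
      refine Prod.ext h ?_
      funext s
      exact absurd s.2 (Finset.notMem_empty _)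
  | insert j s hj ih =>
    have hf : Finer (lS T l c n s) (ballLab T c n) := by
      intro x y h
      exact congrArg (fun q => q.1.2) h
    have hb : BF μ T (fun x => (lS T l c n s x, ballLab T c n (T (gen j) x))) ≤
        BF μ T (lS T l c n s) := by
      obtain ⟨h1, h2⟩ := bf_split T hT (lS_isLab T hT hl hc n s) hf j.1
      rcases j with ⟨i, b⟩
      cases b
      · rw [gen_false]; exact h2
      · rw [gen_true]; exact h1
    refine (le_of_eq (bf_congr T ?_ ?_)).trans (hb.trans ih)
    · intro x y h
      have h1 : (l x, ballLab T c n x) = (l y, ballLab T c n y) := congrArg Prod.fst h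
      have h2 := congrArg Prod.snd h
      refine Prod.ext (Prod.ext h1 ?_) ?_
      · funext i
        exact congrFun h2 ⟨i.1, Finset.mem_insert_of_mem i.2⟩
      · exact congrFun h2 ⟨j, Finset.mem_insert_self j s⟩
    · intro x y h
      have h1 : lS T l c n s x = lS T l c n s y := congrArg Prod.fst h
      have h2 := congrArg Prod.snd h
      have h0 : (l x, ballLab T c n x) = (l y, ballLab T c n y) := congrArg Prod.fst h1
      refine Prod.ext h0 ?_
      funext i
      rcases Finset.mem_insert.1 i.2 with h3 | h3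
      · have h4 : ballLab T c n (T (gen j) x) = ballLab T c n (T (gen j) y) := h2
        rw [← h3] at h4
        exact h4
      · exact congrFun (congrArg Prod.snd h1) ⟨i.1, h3⟩

theorem ball_split [IsProbabilityMeasure μ] (T : FreeGroup (Fin r) → X → X) (hT : PmpAct μ T)
    {l : X → α} (hl : IsLab μ l)
    {c : X → γ} (hc : Finer l c) (n : ℕ) :
    BF μ T (fun x => (l x, ballLab T c n x)) ≤ BF μ T l := by
  have hcl : IsLab μ c := (lab_of_finer hl hc).1
  induction n with
  | zero =>
    refine le_of_eq (bf_congr T ?_ ?_)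
    · intro x y h
      exact congrArg Prod.fst h
    · intro x y h
      exact Prod.ext h (finer_ball_zero T hT.one c x y (hc x y h))
  | succ n ih =>
    refine (le_of_eq (bf_congr T ?_ ?_)).trans ((lS_bf T hT hl hcl n Finset.univ).trans ih)
    · intro x y h
      have h1 : l x = l y := congrArg Prod.fst h
      have h2 : ballLab T c (n + 1) x = ballLab T c (n + 1) y := congrArg Prod.snd h
      refine Prod.ext (Prod.ext h1 (ball_finer T c n.le_succ x y h2)) ?_
      funext s k
      have hk : ((gen s.1)⁻¹ * k.1).norm ≤ n + 1 := by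
        have h3 := FreeGroup.norm_mul_le (gen s.1)⁻¹ k.1
        have h4 := norm_gen s.1
        have h5 := FreeGroup.norm_inv_eq (x := gen s.1)
        have h6 := k.2
        omega
      have h3 := congrFun h2 ⟨(gen s.1)⁻¹ * k.1, hk⟩
      have h4 : ∀ z, c (T k.1⁻¹ (T (gen s.1) z)) = c (T ((gen s.1)⁻¹ * k.1)⁻¹ z) := by
        intro z
        rw [← hT.mul, mul_inv_rev, inv_inv]
      change c (T k.1⁻¹ (T (gen s.1) x)) = c (T k.1⁻¹ (T (gen s.1) y))
      rw [h4, h4]
      exact h3
    · intro x y h
      have h1 : (l x, ballLab T c n x) = (l y, ballLab T c n y) := congrArg Prod.fst h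
      have h2 := congrArg Prod.snd h
      have h0 : l x = l y := congrArg Prod.fst h1
      refine Prod.ext h0 ?_
      funext k
      rcases exists_decomp k.1 k.2 with h3 | ⟨s, g, hg, e⟩
      · exact congrFun (congrArg Prod.snd h1) ⟨k.1, h3⟩
      · have h4 : ∀ z, c (T k.1⁻¹ z) = c (T g⁻¹ (T (gen (s.1, !s.2)) z)) := by
          intro z
          rw [← hT.mul, e, mul_inv_rev, gen_inv]
        have h5 := congrFun (congrFun h2 ⟨(s.1, !s.2), Finset.mem_univ _⟩) ⟨g, hg⟩
        change c (T k.1⁻¹ x) = c (T k.1⁻¹ y)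
        rw [h4, h4]
        exact h5

theorem bf_cont [IsProbabilityMeasure μ] (T : FreeGroup (Fin r) → X → X) (hT : PmpAct μ T)
    {l : X → α} (hl : IsLab μ l)
    {p : X → γ} (hp : IsLab μ p) :
    BF μ T p ≤ BF μ T (fun x => (p x, l x)) +
      (2 * (r : ℝ) - 1) * (ent μ (fun x => (p x, l x)) - ent μ p) := by
  have hpl := (lab_pair hp hl).1
  have h1 : ∀ i : Fin r, ent μ (fun x => (p x, p (T (FreeGroup.of i)⁻¹ x))) ≤
      ent μ (fun x => ((p x, l x), (p (T (FreeGroup.of i)⁻¹ x), l (T (FreeGroup.of i)⁻¹ x)))) := by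
    intro i
    refine (lab_of_finer (lab_pair hpl (lab_comp (hT.mp (FreeGroup.of i)⁻¹) hpl).1).1 ?_).2
    intro x y h
    simp only [Prod.mk.injEq] at h ⊢
    exact ⟨h.1.1, h.2.1⟩
  have h2 := Finset.sum_le_sum (s := Finset.univ) (fun i _ => h1 i)
  unfold BF
  linarith

end Pool.Agent.TH395.AFB
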