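import Pool.Agent.TH722.AF.Defs

/-!
A finite generating partition forces the discrete group to be countable; the dual of a countable
group is second countable.
-/

set_option autoImplicit false
set_option linter.unusedSectionVars false

namespace Pool.Agent.TH395.AFC

open MeasureTheory Set Filter Pool.Agent.TH722.FI Pool.Agent.TH722.AF
open scoped Topology ENNReal

universe u

/-- a measurable space generated by countably many countably generated ones -/
theorem ctblGen_iSup {Z ι : Type*} [Countable ι] (m : ι → MeasurableSpace Z)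
    (hm : ∀ i, @MeasurableSpace.CountablyGenerated Z (m i)) :
    @MeasurableSpace.CountablyGenerated Z (⨆ i, m i) := by
  choose b hb1 hb2 using fun i => (hm i).isCountablyGenerated
  refine @MeasurableSpace.CountablyGenerated.mk Z (⨆ i, m i) ⟨⋃ i, b i, countable_iUnion hb1, ?_⟩
  refine le_antisymm (iSup_le fun i => ?_) (MeasurableSpace.generateFrom_le fun t ht => ?_)
  · rw [hb2 i]
    exact MeasurableSpace.generateFrom_mono (subset_iUnion b i)
  · obtain ⟨i, hi⟩ := mem_iUnion.1 ht
    refine le_iSup m i t ?_
    rw [hb2 i]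
    exact MeasurableSpace.measurableSet_generateFrom hi

/-- a measure is separable if its sigma-algebra is, modulo null sets, countably generated -/
theorem isSeparable_of_gen {Z : Type*} {m : MeasurableSpace Z} (μ : Measure Z) [IsFiniteMeasure μ]
    (m' : MeasurableSpace Z) (hle : m' ≤ m) (hc : @MeasurableSpace.CountablyGenerated Z m')
    (hgen : ∀ B : Set Z, MeasurableSet[m] B → ∃ B', MeasurableSet[m'] B' ∧ B =ᵐ[μ] B') :
    @MeasureTheory.IsSeparable Z m μ := by
  have hs : @MeasureTheory.IsSeparable Z m' (μ.trim hle) := by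
    have : IsFiniteMeasure (μ.trim hle) := isFiniteMeasure_trim hle
    infer_instance
  obtain ⟨S, hS1, hS2⟩ := hs.exists_countable_measureDense
  refine @MeasureTheory.IsSeparable.mk Z m μ
    ⟨S, hS1, @Measure.MeasureDense.mk Z m μ S (fun s h => hle _ (hS2.measurable s h)) ?_⟩
  intro B hB _ ε hε
  obtain ⟨B', hB', he⟩ := hgen B hB
  obtain ⟨t, ht, hlt⟩ := hS2.approx B' hB'
    (by rw [trim_measurableSet_eq hle hB']; exact measure_ne_top _ _) ε hε
  refine ⟨t, ht, ?_⟩
  rw [trim_measurableSet_eq hle (hB'.symmDiff (hS2.measurable t ht))] at hlt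
  refine lt_of_le_of_lt (le_of_eq ?_) hlt
  refine measure_congr ?_
  exact he.symmDiff (ae_eq_refl t)

section dual

variable {A : Type u} [AddCommGroup A] [TopologicalSpace A]

theorem eval_continuous (a : A) : Continuous (fun χ : Dual A => χ.eval a) := by
  have h : Continuous (fun χ : ContinuousMonoidHom (Multiplicative A) Circle =>
    χ (Multiplicative.ofAdd a)) := continuous_eval_const (Multiplicative.ofAdd a)
  exact h

theorem eval_continuous' (a : A) : Continuous (fun χ : Dual A => (χ.eval a : ℂ)) := by
  have h : Continuous (fun z : Circle => (z : ℂ)) := continuous_subtype_val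
  exact h.comp (eval_continuous a)

theorem eval_mul (χ ψ : Dual A) (a : A) : (χ * ψ).eval a = χ.eval a * ψ.eval a := rfl

theorem eval_add (χ : Dual A) (a b : A) : χ.eval (a + b) = χ.eval a * χ.eval b :=
  map_mul (show PontryaginDual (Multiplicative A) from χ) (Multiplicative.ofAdd a)
    (Multiplicative.ofAdd b)

theorem eval_neg (χ : Dual A) (a : A) : χ.eval (-a) = (χ.eval a)⁻¹ :=
  map_inv (show PontryaginDual (Multiplicative A) from χ) (Multiplicative.ofAdd a)

/-- the inclusion `ℚ/ℤ → ℝ/ℤ` -/
noncomputable def jmap : AddCircle (1 : ℚ) →+ AddCircle (1 : ℝ) :=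
  QuotientAddGroup.map _ _ (Rat.castHom ℝ).toAddMonoidHom (by
    intro q hq
    obtain ⟨n, hn⟩ := AddSubgroup.mem_zmultiples_iff.1 hq
    refine AddSubgroup.mem_comap.2 (AddSubgroup.mem_zmultiples_iff.2 ⟨n, ?_⟩)
    rw [← hn]
    simp)

theorem jmap_ne {x : AddCircle (1 : ℚ)} (hx : x ≠ 0) : jmap x ≠ 0 := by
  induction x using QuotientAddGroup.induction_on with
  | H q =>
    intro h
    apply hx
    have h1 : ((q : ℝ) : AddCircle (1 : ℝ)) = 0 := h
    rw [AddCircle.coe_eq_zero_iff] at h1
    obtain ⟨n, hn⟩ := h1
    have h2 : (n : ℚ) = q := by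
      have : (n : ℝ) = (q : ℝ) := by simpa using hn
      exact_mod_cast this
    change ((q : ℚ) : AddCircle (1 : ℚ)) = 0
    rw [AddCircle.coe_eq_zero_iff]
    exact ⟨n, by simpa using h2⟩

variable [DiscreteTopology A]

theorem exists_char {a : A} (ha : a ≠ 0) : ∃ χ : Dual A, χ.eval a ≠ 1 := by
  obtain ⟨c, hc⟩ := CharacterModule.exists_character_apply_ne_zero_of_ne_zero ha
  let f : Multiplicative A →* Circle :=
    { toFun := fun x => AddCircle.toCircle (jmap (c (Multiplicative.toAdd x)))
      map_one' := by
        simp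
      map_mul' := by
        intro x y
        rw [toAdd_mul, map_add, map_add, AddCircle.toCircle_add] }
  refine ⟨(show PontryaginDual (Multiplicative A) from
    (⟨f, continuous_of_discreteTopology⟩ : Multiplicative A →ₜ* Circle)), ?_⟩
  intro h
  have h1 : AddCircle.toCircle (jmap (c a)) = 1 := h
  rw [← AddCircle.toCircle_zero (T := 1)] at h1
  exact jmap_ne hc (AddCircle.injective_toCircle one_ne_zero h1)

instance : IsProbabilityMeasure (haar A) := ⟨by
  have := Measure.haarMeasure_self (K₀ := (⊤ : TopologicalSpace.PositiveCompacts (Dual A)))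
  simpa [haar] using this⟩

instance : (haar A).IsHaarMeasure := by
  unfold haar
  infer_instance

theorem integral_eval {a : A} (ha : a ≠ 0) : ∫ χ : Dual A, (χ.eval a : ℂ) ∂(haar A) = 0 := by
  obtain ⟨χ₀, h0⟩ := exists_char ha
  have h1 := integral_mul_left_eq_self (μ := haar A) (fun χ : Dual A => (χ.eval a : ℂ)) χ₀
  simp only [eval_mul, Circle.coe_mul] at h1
  rw [integral_const_mul] at h1
  by_contra h
  have h2 : (χ₀.eval a : ℂ) = 1 := by
    field_simp at h1
    exact h1
  exact h0 (Circle.ext (by simpa using h2))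

theorem dist_ge (a b : A) (hab : a ≠ b) :
    1 ≤ ∫ χ : Dual A, ‖(χ.eval a : ℂ) - (χ.eval b : ℂ)‖ ∂(haar A) := by
  have hci : ∀ c : A, Integrable (fun χ : Dual A => (χ.eval c : ℂ)) (haar A) := by
    intro c
    refine Integrable.of_bound (C := 1) ?_ (Eventually.of_forall fun χ => (Circle.norm_coe _).le)
    exact (eval_continuous' c).aestronglyMeasurable
  have h1 : ∀ χ : Dual A, ‖(χ.eval a : ℂ) - (χ.eval b : ℂ)‖ =
      ‖(1 : ℂ) - (χ.eval (b + -a) : ℂ)‖ := by
    intro χ
    have e : (χ.eval a : ℂ) - (χ.eval b : ℂ) =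
        (χ.eval a : ℂ) * ((1 : ℂ) - (χ.eval (b + -a) : ℂ)) := by
      rw [eval_add, eval_neg, Circle.coe_mul, Circle.coe_inv]
      have := (χ.eval a).coe_ne_zero
      field_simp
    rw [e, norm_mul, Circle.norm_coe, one_mul]
  simp only [h1]
  have hne : b + -a ≠ 0 := by
    intro h
    apply hab
    rw [← sub_eq_add_neg, sub_eq_zero] at h
    exact h.symm
  have h2 := norm_integral_le_integral_norm (μ := haar A)
    (fun χ : Dual A => (1 : ℂ) - (χ.eval (b + -a) : ℂ))
  rw [integral_sub (integrable_const _) (hci _), integral_eval hne] at h2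
  simpa using h2

end dual

theorem countable_of_gen {A : Type u} [AddCommGroup A] [TopologicalSpace A] [DiscreteTopology A]
    {G : Type*} [Countable G] (T : G → Dual A → Dual A)
    (hT : ∀ g, MeasurePreserving (T g) (haar A) (haar A)) {k : ℕ} (α : Dual A → Fin k)
    (hα : Measurable α)
    (hgen : ∀ B : Set (Dual A), MeasurableSet B → ∃ B' : Set (Dual A),
      MeasurableSet[⨆ g, MeasurableSpace.comap (fun x => α (T g x)) ⊤] B' ∧ B =ᵐ[haar A] B') :
    Countable A := by
  have hle : (⨆ g, MeasurableSpace.comap (fun x => α (T g x)) ⊤) ≤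
      (inferInstance : MeasurableSpace (Dual A)) := by
    refine iSup_le fun g => ?_
    have : Measurable (fun x => α (T g x)) := hα.comp (hT g).measurable
    exact this.comap_le
  have hcg : @MeasurableSpace.CountablyGenerated (Dual A)
      (⨆ g, MeasurableSpace.comap (fun x => α (T g x)) ⊤) := by
    refine ctblGen_iSup _ fun g => ?_
    exact MeasurableSpace.CountablyGenerated.comap (m := ⊤) _
  have hsep : MeasureTheory.IsSeparable (haar A) := isSeparable_of_gen (haar A) _ hle hcg hgen
  have hci : ∀ c : A, MemLp (fun χ : Dual A => (χ.eval c : ℂ)) 1 (haar A) := by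
    intro c
    rw [memLp_one_iff_integrable]
    refine Integrable.of_bound (C := 1) ?_ (Eventually.of_forall fun χ => (Circle.norm_coe _).le)
    exact (eval_continuous' c).aestronglyMeasurable
  let e : A → Lp ℂ 1 (haar A) := fun c => (hci c).toLp
  have hd : ∀ a b, a ≠ b → 1 ≤ dist (e a) (e b) := by
    intro a b hab
    rw [dist_eq_norm, L1.norm_eq_integral_norm]
    refine (dist_ge a b hab).trans (le_of_eq ?_)
    refine integral_congr_ae ?_
    filter_upwards [Lp.coeFn_sub (e a) (e b), (hci a).coeFn_toLp, (hci b).coeFn_toLp] with χ h1 h2 h3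
    rw [h1, Pi.sub_apply]
    have h4 : (e a) χ = (χ.eval a : ℂ) := h2
    have h5 : (e b) χ = (χ.eval b : ℂ) := h3
    rw [h4, h5]
  have : Fact ((1 : ℝ≥0∞) ≠ ∞) := ⟨ENNReal.one_ne_top⟩
  refine Pairwise.countable_of_isOpen_disjoint (α := Lp ℂ 1 (haar A))
    (s := fun a => Metric.ball (e a) (1 / 2)) ?_ (fun a => Metric.isOpen_ball)
    (fun a => ⟨e a, Metric.mem_ball_self (by norm_num)⟩)
  intro a b hab
  refine Metric.ball_disjoint_ball ?_
  have := hd a b hab
  linarith

theorem dual_secondCountable {A : Type u} [AddCommGroup A] [TopologicalSpace A]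
    [DiscreteTopology A] [Countable A] : SecondCountableTopology (Dual A) := by
  have h : SecondCountableTopology (ContinuousMonoidHom (Multiplicative A) Circle) := by
    have : Countable (Multiplicative A) := inferInstanceAs (Countable A)
    exact (ContinuousMonoidHom.isInducing_toContinuousMap (Multiplicative A)
      Circle).secondCountableTopology
  exact h

end Pool.Agent.TH395.AFC
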