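import Pool.Agent.TH599.VR.Defs

/-!
# Nuclear norm and the diagonal (job VR-A of helper599)
-/

set_option autoImplicit false

open Pool.Agent.TH599.VR Module

namespace Pool.Agent.TH395.J2563

open scoped InnerProductSpace

theorem exists_basis {d : ℕ} (A : Matrix (Fin d) (Fin d) ℝ) :
    ∃ v : OrthonormalBasis (Fin d) ℝ (EuclideanSpace ℝ (Fin d)),
      (∀ j, ‖Matrix.toEuclideanLin A (v j)‖ = (Matrix.toEuclideanLin A).singularValues j) ∧
      (∀ j, LinearMap.adjoint (Matrix.toEuclideanLin A) (Matrix.toEuclideanLin A (v j)) =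
        ((Matrix.toEuclideanLin A).singularValues j) ^ 2 • v j) := by
  set T := Matrix.toEuclideanLin A with hT
  have hS := T.isSymmetric_adjoint_comp_self
  have hn : finrank ℝ (EuclideanSpace ℝ (Fin d)) = d := finrank_euclideanSpace_fin
  have h2 : ∀ j, LinearMap.adjoint T (T (hS.eigenvectorBasis hn j)) =
      (T.singularValues j) ^ 2 • hS.eigenvectorBasis hn j := by
    intro j
    have := hS.apply_eigenvectorBasis hn j
    rw [T.sq_singularValues_fin hn]
    exact this
  refine ⟨hS.eigenvectorBasis hn, ?_, h2⟩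
  intro j
  have h3 : ‖T (hS.eigenvectorBasis hn j)‖ ^ 2 = (T.singularValues j) ^ 2 := by
    rw [← real_inner_self_eq_norm_sq, ← LinearMap.adjoint_inner_left, h2, inner_smul_left,
      real_inner_self_eq_norm_sq, OrthonormalBasis.norm_eq_one]
    simp
  have h4 := T.singularValues_nonneg j
  exact (sq_eq_sq₀ (norm_nonneg _) h4).1 h3

theorem inner_diag {d : ℕ} (B : Matrix (Fin d) (Fin d) ℝ) (i : Fin d) :
    ⟪EuclideanSpace.basisFun (Fin d) ℝ i,
      Matrix.toEuclideanLin B (EuclideanSpace.basisFun (Fin d) ℝ i)⟫_ℝ = B i i := by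
  rw [EuclideanSpace.basisFun_apply, EuclideanSpace.inner_single_left]
  simp [Matrix.toLpLin_apply]

theorem trace_eq {d : ℕ} (B : Matrix (Fin d) (Fin d) ℝ)
    (v : OrthonormalBasis (Fin d) ℝ (EuclideanSpace ℝ (Fin d))) :
    ∑ j, ⟪v j, Matrix.toEuclideanLin B (v j)⟫_ℝ = ∑ i, B i i := by
  rw [← LinearMap.trace_eq_sum_inner _ v,
    LinearMap.trace_eq_sum_inner _ (EuclideanSpace.basisFun (Fin d) ℝ)]
  exact Finset.sum_congr rfl fun i _ => inner_diag B i

theorem diag_apply {d : ℕ} (s : Fin d → ℝ) (x : EuclideanSpace ℝ (Fin d)) (i : Fin d) :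
    Matrix.toEuclideanLin (Matrix.diagonal s) x i = s i * x i := by
  rw [Matrix.toLpLin_apply]
  simp [Matrix.mulVec_diagonal]

theorem diag_le_nuc {d : ℕ} (A : Matrix (Fin d) (Fin d) ℝ) : ∑ i, |A i i| ≤ nuc A := by
  obtain ⟨v, hv, _⟩ := exists_basis A
  set s : Fin d → ℝ := fun i => if 0 ≤ A i i then 1 else -1 with hs
  have hs2 : ∀ i, s i ^ 2 = 1 := by
    intro i
    simp only [hs]
    split_ifs <;> norm_num
  have h1 : ∑ i, |A i i| = ∑ i, (Matrix.diagonal s * A) i i := by
    refine Finset.sum_congr rfl fun i _ => ?_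
    rw [Matrix.diagonal_mul]
    simp only [hs]
    split_ifs with h
    · rw [abs_of_nonneg h, one_mul]
    · rw [abs_of_neg (not_le.1 h)]; ring
  rw [h1, ← trace_eq _ v]
  unfold nuc
  refine Finset.sum_le_sum fun j _ => ?_
  refine (real_inner_le_norm _ _).trans ?_
  rw [OrthonormalBasis.norm_eq_one, one_mul, ← hv j]
  have h2 : Matrix.toEuclideanLin (Matrix.diagonal s * A) (v j) =
      Matrix.toEuclideanLin (Matrix.diagonal s) (Matrix.toEuclideanLin A (v j)) := by
    simp [Matrix.toLpLin_apply, Matrix.mulVec_mulVec]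
  rw [h2]
  refine le_of_eq ?_
  rw [EuclideanSpace.norm_eq, EuclideanSpace.norm_eq]
  congr 1
  refine Finset.sum_congr rfl fun i _ => ?_
  rw [diag_apply, norm_mul, mul_pow, Real.norm_eq_abs, sq_abs, hs2, one_mul]

theorem nuc_diagonal {d : ℕ} (a : Fin d → ℝ) : nuc (Matrix.diagonal a) = ∑ i, |a i| := by
  obtain ⟨v, _, hv⟩ := exists_basis (Matrix.diagonal a)
  have h1 : ∑ i, |a i| = ∑ i, (Matrix.diagonal fun i => |a i|) i i := by
    refine Finset.sum_congr rfl fun i _ => ?_
    rw [Matrix.diagonal_apply_eq]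
  rw [h1, ← trace_eq _ v]
  unfold nuc
  refine Finset.sum_congr rfl fun j _ => ?_
  set σ := (Matrix.toEuclideanLin (Matrix.diagonal a)).singularValues j with hσ
  have hσ0 : 0 ≤ σ := (Matrix.toEuclideanLin (Matrix.diagonal a)).singularValues_nonneg j
  have h2 : Matrix.toEuclideanLin (Matrix.diagonal fun i => |a i|) (v j) = σ • v j := by
    ext i
    rw [diag_apply, PiLp.smul_apply, smul_eq_mul]
    have h3 := congrArg (fun x : EuclideanSpace ℝ (Fin d) => x i) (hv j)
    simp only at h3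
    rw [← Matrix.toEuclideanLin_conjTranspose_eq_adjoint, Matrix.diagonal_conjTranspose, diag_apply,
      diag_apply, PiLp.smul_apply, smul_eq_mul] at h3
    simp only [star_trivial] at h3
    by_cases h4 : v j i = 0
    · rw [h4, mul_zero, mul_zero]
    · have h5 : a i ^ 2 = σ ^ 2 := by
        apply mul_right_cancel₀ h4
        rw [← h3]
        ring
      have h6 : |a i| = σ := by
        rw [← abs_of_nonneg hσ0]
        exact (sq_eq_sq_iff_abs_eq_abs _ _).1 h5
      rw [h6]
  rw [h2, inner_smul_right, real_inner_self_eq_norm_sq, OrthonormalBasis.norm_eq_one]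
  ring

end Pool.Agent.TH395.J2563
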