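import Pool.Agent.TH599.VR.Defs

/-!
# Volume of the l1-sum of cubes (job VR-C of helper599)
-/

set_option autoImplicit false

open Pool.Agent.TH599.VR MeasureTheory Module

namespace Pool.Agent.TH395.J2565

theorem mp_uncurry (J m : ℕ) :
    MeasurePreserving (MeasurableEquiv.curry (Fin J) (Fin m) ℝ).symm := by
  refine ⟨(MeasurableEquiv.curry (Fin J) (Fin m) ℝ).symm.measurable, ?_⟩
  symm
  rw [volume_pi]
  refine Measure.pi_eq fun s hs => ?_
  rw [MeasurableEquiv.map_apply]
  have h1 : (MeasurableEquiv.curry (Fin J) (Fin m) ℝ).symm ⁻¹' (Set.univ.pi s) =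
      Set.univ.pi (fun j => Set.univ.pi (fun i => s (j, i))) := by
    ext x
    simp only [Set.mem_preimage, Set.mem_pi, Set.mem_univ, true_imp_iff, Prod.forall]
    rfl
  rw [h1, volume_pi_pi]
  simp_rw [volume_pi_pi]
  rw [Fintype.prod_prod_type]

theorem int_sup (m : ℕ) : ∫ y : Fin m → ℝ, Real.exp (-‖y‖) = 2 ^ m * (m.factorial : ℝ) := by
  have h1 := measure_unitBall_eq_integral_div_gamma (volume : Measure (Fin m → ℝ)) (p := 1)
    one_pos
  rw [Real.volume_pi_ball _ one_pos] at h1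
  simp only [Real.rpow_one, div_one, mul_one, finrank_fin_fun, Fintype.card_fin] at h1
  rw [Real.Gamma_nat_eq_factorial] at h1
  have h2 : 0 ≤ ∫ y : Fin m → ℝ, Real.exp (-‖y‖) := integral_nonneg fun y => (Real.exp_pos _).le
  have hm : (0 : ℝ) < m.factorial := by exact_mod_cast m.factorial_pos
  have h3 := (ENNReal.ofReal_eq_ofReal_iff (by positivity) (by positivity)).1 h1
  rw [eq_div_iff hm.ne'] at h3
  exact h3.symm

theorem volume_cubes (J m : ℕ) (hJ : 1 ≤ J) (hm : 1 ≤ m) :
    volume (cubes J m) =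
      ENNReal.ofReal (((2 : ℝ) ^ m * (m.factorial : ℝ)) ^ J / ((J * m).factorial : ℝ)) := by
  have : Nonempty (Fin J) := ⟨⟨0, hJ⟩⟩
  have : Nonempty (Fin m) := ⟨⟨0, hm⟩⟩
  -- transport
  set g : (Fin J → Fin m → ℝ) → ℝ := fun x => ∑ j, ‖x j‖ with hg
  have hgc : Continuous g := by
    rw [hg]
    fun_prop
  have hK : MeasurableSet {x : Fin J → Fin m → ℝ | g x ≤ 1} :=
    measurableSet_le hgc.measurable measurable_const
  have e1 : volume (cubes J m) = volume {x : Fin J → Fin m → ℝ | g x ≤ 1} := by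
    rw [← (mp_uncurry J m).symm.measure_preimage_equiv,
      ← (PiLp.volume_preserving_ofLp (Fin J × Fin m)).measure_preimage]
    · rfl
    · exact (((mp_uncurry J m).symm.measurable) hK).nullMeasurableSet
  have g1 : g 0 = 0 := by simp [hg]
  have g2 : ∀ x, g (-x) = g x := by intro x; simp [hg]
  have g3 : ∀ x y, g (x + y) ≤ g x + g y := by
    intro x y
    simp only [hg, Pi.add_apply]
    rw [← Finset.sum_add_distrib]
    exact Finset.sum_le_sum fun j _ => norm_add_le _ _
  have g4 : ∀ {x}, g x = 0 → x = 0 := by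
    intro x hx
    simp only [hg] at hx
    rw [Finset.sum_eq_zero_iff_of_nonneg (fun j _ => norm_nonneg _)] at hx
    funext j
    exact norm_eq_zero.1 (hx j (Finset.mem_univ _))
  have g5 : ∀ (r : ℝ) x, g (r • x) ≤ |r| * g x := by
    intro r x
    simp only [hg, Pi.smul_apply, norm_smul, Real.norm_eq_abs]
    rw [Finset.mul_sum]
  rw [e1, measure_le_eq_lt volume g1 g2 g3 g4 g5 1,
    measure_lt_one_eq_integral_div_gamma volume g1 g2 g3 g4 g5 one_pos]
  congr 1
  simp only [Real.rpow_one, div_one]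
  have e2 : ∫ x : Fin J → Fin m → ℝ, Real.exp (-(g x)) = (2 ^ m * (m.factorial : ℝ)) ^ J := by
    have h1 : ∀ x : Fin J → Fin m → ℝ, Real.exp (-(g x)) = ∏ j, Real.exp (-‖x j‖) := by
      intro x
      rw [← Real.exp_sum, Finset.sum_neg_distrib]
    simp_rw [h1]
    rw [integral_fintype_prod_volume_eq_prod (fun _ (y : Fin m → ℝ) => Real.exp (-‖y‖))]
    rw [Finset.prod_const, int_sup, Finset.card_univ, Fintype.card_fin]
  rw [e2]
  congr 1
  have e3 : finrank ℝ (Fin J → Fin m → ℝ) = J * m := by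
    rw [finrank_pi_fintype]
    simp
  rw [e3, ← Real.Gamma_nat_eq_factorial]

end Pool.Agent.TH395.J2565
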