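import Pool.Agent.TH32.H.Stmts

/-!
Averages of periodic functions over the residue rings, and the distribution of the valuations of
`x`, `x + a₁`, `x + a₂`.
-/

set_option autoImplicit false

namespace Pool.Agent.TH395.TZ

open Pool.Agent.H260TZ Pool.Agent.TH32

variable {R : Type} [CommRing R] [IsDomain R] (D : DV R)

/-! ### Truncated valuations -/

lemma lev_ext {n : ℕ} {a b : R} (h : ∀ i, i ≤ n → (D.t ^ i ∣ a ↔ D.t ^ i ∣ b)) :
    D.lev n a = D.lev n b := by
  apply le_antisymm
  · rw [← D.dvd_iff_lev (D.lev_le n a), ← h _ (D.lev_le n a)]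
    exact D.lev_dvd n a
  · rw [← D.dvd_iff_lev (D.lev_le n b), h _ (D.lev_le n b)]
    exact D.lev_dvd n b

lemma lev_congr {n : ℕ} {a b : R} (h : D.t ^ n ∣ a - b) : D.lev n a = D.lev n b := by
  refine lev_ext D fun i hi => ?_
  have h1 : D.t ^ i ∣ a - b := (pow_dvd_pow _ hi).trans h
  exact ⟨fun h2 => (dvd_sub_right h2).mp h1, fun h2 => (dvd_sub_left h2).mp h1⟩

lemma lev_mul_unit {n : ℕ} {a u : R} (hu : IsUnit u) : D.lev n (u * a) = D.lev n a :=
  lev_ext D fun _ _ => hu.dvd_mul_left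

lemma lev_zero (a : R) : D.lev 0 a = 0 := Nat.le_zero.mp (D.lev_le 0 a)

lemma lev_not {n : ℕ} {a : R} (h : ¬ D.t ∣ a) : D.lev n a = 0 := by
  by_contra hne
  have h1 := D.lev_dvd n a
  exact h ((dvd_pow_self _ hne).trans h1)

lemma lev_succ (n : ℕ) (a : R) : D.lev (n + 1) (D.t * a) = D.lev n a + 1 := by
  apply le_antisymm
  · rcases hj : D.lev (n + 1) (D.t * a) with _ | j
    · omega
    · have h1 := D.lev_dvd (n + 1) (D.t * a)
      have h2 := D.lev_le (n + 1) (D.t * a)
      rw [hj] at h1 h2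
      rw [pow_succ', mul_dvd_mul_iff_left D.t_ne] at h1
      have := (D.dvd_iff_lev (n := n) (by omega) a).mp h1
      omega
  · rw [← D.dvd_iff_lev (by have := D.lev_le n a; omega), pow_succ']
    exact mul_dvd_mul_left _ (D.lev_dvd n a)

/-! ### Averages -/

lemma q_ne_zero : (D.q : ENNReal) ≠ 0 := by
  have := D.two_le
  exact_mod_cast (by omega : D.q ≠ 0)

lemma q_ne_top : (D.q : ENNReal) ≠ ⊤ := ENNReal.natCast_ne_top _

lemma qpow_ne_zero (n : ℕ) : (D.q : ENNReal) ^ n ≠ 0 := pow_ne_zero _ (q_ne_zero D)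

lemma qpow_ne_top (n : ℕ) : (D.q : ENNReal) ^ n ≠ ⊤ := ENNReal.pow_ne_top (q_ne_top D)

/-- average over the residue classes modulo `t^n` -/
noncomputable def I (n : ℕ) (F : R → ENNReal) : ENNReal :=
  ((D.q : ENNReal) ^ n)⁻¹ * ∑ z : D.Q n, F (D.lift z)

/-- `F` is periodic modulo `t^n` -/
def Per (n : ℕ) (F : R → ENNReal) : Prop := ∀ x y, D.t ^ n ∣ x - y → F x = F y

lemma sum_eq (n : ℕ) (F : R → ENNReal) :
    ∑ z : D.Q n, F (D.lift z) = (D.q : ENNReal) ^ n * I D n F := by
  unfold I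
  rw [← mul_assoc, ENNReal.mul_inv_cancel (qpow_ne_zero D n) (qpow_ne_top D n), one_mul]

lemma I_congr {n : ℕ} {F G : R → ENNReal} (h : ∀ x, F x = G x) : I D n F = I D n G := by
  unfold I
  simp only [h]

lemma I_const (n : ℕ) (c : ENNReal) : I D n (fun _ => c) = c := by
  unfold I
  rw [Finset.sum_const, Finset.card_univ, D.card_Q, nsmul_eq_mul, ← mul_assoc]
  push_cast
  rw [ENNReal.inv_mul_cancel (qpow_ne_zero D n) (qpow_ne_top D n), one_mul]

lemma I_shift {n : ℕ} {F : R → ENNReal} (hF : Per D n F) (a : R) :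
    I D n (fun x => F (x + a)) = I D n F := by
  unfold I
  congr 1
  refine Fintype.sum_equiv (Equiv.addRight (D.red n a)) _ _ fun z => ?_
  apply hF
  rw [← D.red_eq, map_add, D.red_lift, D.red_lift]
  rfl

lemma per_step {n : ℕ} {F : R → ENNReal} (hF : Per D (n + 1) F) (r : R) :
    Per D n (fun x => F (r + D.t * x)) := by
  intro x y h
  apply hF
  have e : r + D.t * x - (r + D.t * y) = D.t * (x - y) := by ring
  rw [e, pow_succ']
  exact mul_dvd_mul_left _ h

/-- splitting into the residue classes modulo `t` -/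
lemma sum_split {n : ℕ} {F : R → ENNReal} (hF : Per D (n + 1) F) :
    ∑ z : D.Q (n + 1), F (D.lift z) =
      ∑ r : D.Q 1, ∑ w : D.Q n, F (D.lift r + D.t * D.lift w) := by
  rw [← Fintype.sum_prod_type']
  symm
  let f : D.Q 1 × D.Q n → D.Q (n + 1) := fun p => D.red (n + 1) (D.lift p.1 + D.t * D.lift p.2)
  have hinj : Function.Injective f := by
    rintro ⟨r, w⟩ ⟨r', w'⟩ h
    have h1 : D.t ^ (n + 1) ∣ (D.lift r + D.t * D.lift w) - (D.lift r' + D.t * D.lift w') :=
      D.red_eq.mp h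
    have h2 : D.t ∣ D.lift r - D.lift r' := by
      have h3 : D.t ∣ (D.lift r + D.t * D.lift w) - (D.lift r' + D.t * D.lift w') :=
        (dvd_pow_self _ (Nat.succ_ne_zero n)).trans h1
      have e : D.lift r - D.lift r' = ((D.lift r + D.t * D.lift w) -
        (D.lift r' + D.t * D.lift w')) - D.t * (D.lift w - D.lift w') := by ring
      rw [e]
      exact dvd_sub h3 (Dvd.intro _ rfl)
    have h4 : r = r' := by
      rw [← D.red_lift r, ← D.red_lift r', D.red_eq, pow_one]
      exact h2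
    subst h4
    have e : (D.lift r + D.t * D.lift w) - (D.lift r + D.t * D.lift w') =
      D.t * (D.lift w - D.lift w') := by ring
    rw [e, pow_succ', mul_dvd_mul_iff_left D.t_ne, ← D.red_eq, D.red_lift, D.red_lift] at h1
    rw [h1]
  have hbij : Function.Bijective f := by
    rw [Fintype.bijective_iff_injective_and_card]
    refine ⟨hinj, ?_⟩
    rw [Fintype.card_prod, D.card_Q, D.card_Q, D.card_Q]
    ring
  refine Fintype.sum_bijective f hbij _ _ fun p => ?_
  apply hF
  rw [← D.red_eq, D.red_lift]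

lemma I_split {n : ℕ} {F : R → ENNReal} (hF : Per D (n + 1) F) :
    I D (n + 1) F = (D.q : ENNReal)⁻¹ * ∑ r : D.Q 1, I D n (fun x => F (D.lift r + D.t * x)) := by
  unfold I
  rw [sum_split D hF, ← Finset.mul_sum, ← mul_assoc, pow_succ,
    ENNReal.mul_inv (Or.inl (qpow_ne_zero D n)) (Or.inl (qpow_ne_top D n)),
    mul_comm ((D.q : ENNReal) ^ n)⁻¹]

lemma card_Q1 : Fintype.card (D.Q 1) = D.q := by rw [D.card_Q, pow_one]

/-- splitting when the function is constant outside a few classes -/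
lemma split {n J : ℕ} {F : R → ENNReal} (hF : Per D (n + 1) F) (r : Fin J → R)
    (hr : ∀ i j, i ≠ j → ¬ D.t ∣ r i - r j) (c : ENNReal)
    (hc : ∀ x, (∀ j, ¬ D.t ∣ x - r j) → F x = c) :
    I D (n + 1) F = mj J D.q 0 * c +
      (D.q : ENNReal)⁻¹ * ∑ j, I D n (fun x => F (r j + D.t * x)) := by
  classical
  rw [I_split D hF]
  let e : Fin J → D.Q 1 := fun j => D.red 1 (r j)
  have he : Function.Injective e := by
    intro i j h
    by_contra hne
    apply hr i j hne
    have := D.red_eq.mp h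
    rwa [pow_one] at this
  have h1 : ∀ s : D.Q 1, s ∉ Finset.univ.image e →
      I D n (fun x => F (D.lift s + D.t * x)) = c := by
    intro s hs
    rw [← I_const D n c]
    apply I_congr
    intro x
    apply hc
    intro j hj
    apply hs
    rw [Finset.mem_image]
    refine ⟨j, Finset.mem_univ _, ?_⟩
    show D.red 1 (r j) = s
    rw [← D.red_lift s, D.red_eq, pow_one]
    have h2 : D.t ∣ (D.lift s + D.t * x - r j) - D.t * x := dvd_sub hj (Dvd.intro _ rfl)
    have e2 : r j - D.lift s = -((D.lift s + D.t * x - r j) - D.t * x) := by ring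
    rw [e2, dvd_neg]
    exact h2
  have h2 : ∀ j, I D n (fun x => F (D.lift (e j) + D.t * x)) =
      I D n (fun x => F (r j + D.t * x)) := by
    intro j
    obtain ⟨b, hb⟩ : D.t ∣ D.lift (e j) - r j :=
      (dvd_of_eq (pow_one D.t).symm).trans (D.lift_red (n := 1) (r j))
    rw [← I_shift D (per_step D hF (r j)) b]
    apply I_congr
    intro x
    congr 1
    linear_combination hb
  rw [← Finset.sum_add_sum_compl (Finset.univ.image e), Finset.sum_image (fun a _ b _ h => he h)]
  have h3 : ∑ s ∈ (Finset.univ.image e)ᶜ, I D n (fun x => F (D.lift s + D.t * x)) =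
      ((D.q - J : ℕ) : ENNReal) * c := by
    rw [Finset.sum_congr rfl (fun s hs => h1 s (Finset.mem_compl.mp hs)), Finset.sum_const,
      Finset.card_compl, Finset.card_image_of_injective _ he, card_Q1, Finset.card_univ,
      Fintype.card_fin, nsmul_eq_mul]
  have hJ : J ≤ D.q := by
    have := Fintype.card_le_of_injective e he
    rwa [Fintype.card_fin, card_Q1] at this
  have hq : (0 : ℝ) < D.q := by exact_mod_cast D.q_pos
  have h4 : mj J D.q 0 = (D.q : ENNReal)⁻¹ * ((D.q - J : ℕ) : ENNReal) := by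
    unfold mj
    have e1 : (1 - (J : ℝ) * (D.q : ℝ)⁻¹) * ((D.q : ℝ)⁻¹) ^ 0 =
        (D.q : ℝ)⁻¹ * ((D.q - J : ℕ) : ℝ) := by
      rw [Nat.cast_sub hJ]
      field_simp
    rw [e1, ENNReal.ofReal_mul (by positivity), ENNReal.ofReal_inv_of_pos hq,
      ENNReal.ofReal_natCast, ENNReal.ofReal_natCast]
  rw [h3, h4, Finset.sum_congr rfl (fun j _ => h2 j)]
  ring

/-! ### The weights -/

lemma mu_succ (q t : ℕ) (hq : 2 ≤ q) : mu q (t + 1) = (q : ENNReal)⁻¹ * mu q t := by
  have hq0 : (0 : ℝ) < q := by exact_mod_cast (by omega : 0 < q)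
  have e : (q : ENNReal)⁻¹ = ENNReal.ofReal (q : ℝ)⁻¹ := by
    rw [ENNReal.ofReal_inv_of_pos hq0, ENNReal.ofReal_natCast]
  unfold mu
  rw [e, ← ENNReal.ofReal_mul (by positivity)]
  congr 1
  ring

lemma mj_succ (j q t : ℕ) (hq : 2 ≤ q) : mj j q (t + 1) = (q : ENNReal)⁻¹ * mj j q t := by
  have hq0 : (0 : ℝ) < q := by exact_mod_cast (by omega : 0 < q)
  have e : (q : ENNReal)⁻¹ = ENNReal.ofReal (q : ℝ)⁻¹ := by
    rw [ENNReal.ofReal_inv_of_pos hq0, ENNReal.ofReal_natCast]
  unfold mj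
  rw [e, ← ENNReal.ofReal_mul (by positivity)]
  congr 1
  ring

lemma mj_one (q : ℕ) : mj 1 q 0 = mu q 0 := by
  unfold mj mu
  norm_num

lemma mj_zero_eq (j q : ℕ) (hq : 2 ≤ q) (hj : j ≤ q) :
    mj j q 0 + (j : ENNReal) * (q : ENNReal)⁻¹ = 1 := by
  have hq0 : (0 : ℝ) < q := by exact_mod_cast (by omega : 0 < q)
  have e : (q : ENNReal)⁻¹ = ENNReal.ofReal (q : ℝ)⁻¹ := by
    rw [ENNReal.ofReal_inv_of_pos hq0, ENNReal.ofReal_natCast]
  have hj' : (j : ℝ) * (q : ℝ)⁻¹ ≤ 1 := by
    rw [← div_eq_mul_inv, div_le_one hq0]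
    exact_mod_cast hj
  have e2 : (j : ENNReal) = ENNReal.ofReal (j : ℝ) := by rw [ENNReal.ofReal_natCast]
  unfold mj
  rw [e, e2, ← ENNReal.ofReal_mul (by positivity), pow_zero, mul_one,
    ← ENNReal.ofReal_add (by linarith) (by positivity)]
  simp

lemma tsum_mu (q : ℕ) (hq : 2 ≤ q) : ∑' t : ℕ, mu q t = 1 := by
  have hq0 : (1 : ℝ) < q := by exact_mod_cast (by omega : 1 < q)
  have hx0 : (0 : ℝ) ≤ (q : ℝ)⁻¹ := by positivity
  have hx1 : (q : ℝ)⁻¹ < 1 := inv_lt_one_of_one_lt₀ hq0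
  unfold mu
  rw [← ENNReal.ofReal_tsum_of_nonneg (fun n => by
    have : 0 ≤ 1 - (q : ℝ)⁻¹ := by linarith
    positivity) ((summable_geometric_of_lt_one hx0 hx1).mul_left _)]
  rw [tsum_mul_left, tsum_geometric_of_lt_one hx0 hx1, mul_inv_cancel₀ (by linarith)]
  simp

lemma tsum_mu_succ (q : ℕ) (hq : 2 ≤ q) (f : ℕ → ENNReal) :
    ∑' t : ℕ, mu q (t + 1) * f t = (q : ENNReal)⁻¹ * ∑' t : ℕ, mu q t * f t := by
  rw [← ENNReal.tsum_mul_left]
  refine tsum_congr fun t => ?_
  rw [mu_succ q t hq, mul_assoc]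

lemma tsum_shift (f : ℕ → ENNReal) : ∑' t : ℕ, f t = f 0 + ∑' t : ℕ, f (t + 1) :=
  tsum_eq_zero_add' ENNReal.summable

/-- the sum over the valuations smaller than `ρ` -/
noncomputable def S0 (q ρ : ℕ) (f : ℕ → ENNReal) : ENNReal :=
  ∑' y : ℕ, if y < ρ then mu q y * f y else 0

/-- the sum over the valuations larger than `ρ` -/
noncomputable def S1 (q ρ : ℕ) (f : ℕ → ENNReal) : ENNReal :=
  ∑' i : ℕ, mu q (ρ + i + 1) * f (ρ + i + 1)

lemma S0_zero (q : ℕ) (f : ℕ → ENNReal) : S0 q 0 f = 0 := by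
  unfold S0
  simp

lemma S0_succ (q ρ : ℕ) (hq : 2 ≤ q) (f : ℕ → ENNReal) :
    S0 q (ρ + 1) f = mu q 0 * f 0 + (q : ENNReal)⁻¹ * S0 q ρ (fun y => f (y + 1)) := by
  unfold S0
  rw [tsum_shift, if_pos (Nat.succ_pos ρ), ← ENNReal.tsum_mul_left]
  congr 1
  refine tsum_congr fun y => ?_
  by_cases h : y < ρ
  · rw [if_pos h, if_pos (by omega), mu_succ q y hq, mul_assoc]
  · rw [if_neg h, if_neg (by omega), mul_zero]

lemma S1_zero (q : ℕ) (hq : 2 ≤ q) (f : ℕ → ENNReal) :
    S1 q 0 f = (q : ENNReal)⁻¹ * ∑' t : ℕ, mu q t * f (t + 1) := by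
  unfold S1
  rw [← tsum_mu_succ q hq (fun t => f (t + 1))]
  refine tsum_congr fun t => ?_
  rw [Nat.zero_add]

lemma S1_succ (q ρ : ℕ) (hq : 2 ≤ q) (f : ℕ → ENNReal) :
    S1 q (ρ + 1) f = (q : ENNReal)⁻¹ * S1 q ρ (fun y => f (y + 1)) := by
  unfold S1
  rw [← ENNReal.tsum_mul_left]
  refine tsum_congr fun i => ?_
  have e : ρ + 1 + i + 1 = (ρ + i + 1) + 1 := by ring
  rw [e, mu_succ q _ hq, mul_assoc]

/-! ### One centre -/

lemma per_lev {n : ℕ} (f : ℕ → ENNReal) (a : R) : Per D n (fun x => f (D.lev n (x + a))) := by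
  intro x y h
  have : D.lev n (x + a) = D.lev n (y + a) := by
    apply lev_congr
    have e : x + a - (y + a) = x - y := by ring
    rw [e]; exact h
  simp only [this]

theorem one_centre (n : ℕ) : ∀ f : ℕ → ENNReal,
    I D n (fun x => f (D.lev n x)) = ∑' t : ℕ, mu D.q t * f (min t n) := by
  induction n with
  | zero =>
    intro f
    simp only [lev_zero, Nat.min_zero]
    rw [I_const, ENNReal.tsum_mul_right, tsum_mu D.q D.two_le, one_mul]
  | succ n ih =>
    intro f
    have hF : Per D (n + 1) (fun x => f (D.lev (n + 1) x)) := by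
      have := per_lev D (n := n + 1) f 0
      simpa using this
    rw [split D hF (J := 1) (fun _ => 0) (fun i j h => absurd (Subsingleton.elim i j) h) (f 0)
      (fun x hx => by
        have := hx 0
        rw [sub_zero] at this
        simp only [lev_not D this])]
    rw [Fin.sum_univ_one, mj_one, tsum_shift]
    simp only [Nat.zero_min]
    congr 1
    have e : I D n (fun x => f (D.lev (n + 1) (0 + D.t * x))) =
        I D n (fun x => (fun j => f (j + 1)) (D.lev n x)) := by
      apply I_congr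
      intro x
      simp only [zero_add, lev_succ]
    rw [e, ih (fun j => f (j + 1)), ← tsum_mu_succ D.q D.two_le]
    refine tsum_congr fun t => ?_
    simp only [Nat.succ_min_succ]

/-! ### Two centres -/

/-- distribution of `(v(x), v(x + a))` for `v(a) = ρ` -/
noncomputable def T2 (q ρ : ℕ) (f : ℕ → ℕ → ENNReal) : ENNReal :=
  S0 q ρ (fun y => f y y) + mj 2 q ρ * f ρ ρ + S1 q ρ (fun y => f y ρ) + S1 q ρ (fun y => f ρ y)

lemma T2_zero (q : ℕ) (hq : 2 ≤ q) (f : ℕ → ℕ → ENNReal) :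
    T2 q 0 f = mj 2 q 0 * f 0 0 + (q : ENNReal)⁻¹ *
      ((∑' t : ℕ, mu q t * f (t + 1) 0) + ∑' t : ℕ, mu q t * f 0 (t + 1)) := by
  unfold T2
  rw [S0_zero, S1_zero q hq, S1_zero q hq]
  ring

lemma T2_succ (q ρ : ℕ) (hq : 2 ≤ q) (f : ℕ → ℕ → ENNReal) :
    T2 q (ρ + 1) f = mu q 0 * f 0 0 +
      (q : ENNReal)⁻¹ * T2 q ρ (fun a b => f (a + 1) (b + 1)) := by
  unfold T2
  rw [S0_succ q ρ hq, S1_succ q ρ hq, S1_succ q ρ hq, mj_succ 2 q ρ hq]
  ring

lemma T2_const (q ρ : ℕ) (hq : 2 ≤ q) (c : ENNReal) : T2 q ρ (fun _ _ => c) = c := by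
  induction ρ with
  | zero =>
    rw [T2_zero q hq, ENNReal.tsum_mul_right, tsum_mu q hq]
    have h := mj_zero_eq 2 q hq hq
    calc mj 2 q 0 * c + (q : ENNReal)⁻¹ * (1 * c + 1 * c) =
        (mj 2 q 0 + ((2 : ℕ) : ENNReal) * (q : ENNReal)⁻¹) * c := by push_cast; ring
      _ = c := by rw [h, one_mul]
  | succ ρ ih =>
    rw [T2_succ q ρ hq, ih, ← mj_one]
    have h := mj_zero_eq 1 q hq (by omega)
    calc mj 1 q 0 * c + (q : ENNReal)⁻¹ * c =
        (mj 1 q 0 + ((1 : ℕ) : ENNReal) * (q : ENNReal)⁻¹) * c := by push_cast; ring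
      _ = c := by rw [h, one_mul]

theorem two_centre (ρ : ℕ) : ∀ (n : ℕ) (u : R), IsUnit u → ∀ f : ℕ → ℕ → ENNReal,
    I D n (fun x => f (D.lev n x) (D.lev n (x + D.t ^ ρ * u))) =
      T2 D.q ρ (fun a b => f (min a n) (min b n)) := by
  have hq := D.two_le
  induction ρ with
  | zero =>
    intro n u hu f
    rcases n with _ | n
    · simp only [lev_zero, Nat.min_zero]
      rw [I_const, T2_const _ _ hq]
    · simp only [pow_zero, one_mul]
      have hut : ¬ D.t ∣ u := D.not_dvd_iff.mpr hu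
      have hF : Per D (n + 1) (fun x => f (D.lev (n + 1) x) (D.lev (n + 1) (x + u))) := by
        intro x y h
        have h2 : D.t ^ (n + 1) ∣ x + u - (y + u) := by
          have e : x + u - (y + u) = x - y := by ring
          rw [e]; exact h
        simp only [lev_congr D h, lev_congr D h2]
      rw [split D hF (J := 2) ![0, -u] (by
        intro i j hij
        fin_cases i <;> fin_cases j
        · exact absurd rfl hij
        · simpa using hut
        · simpa using hut
        · exact absurd rfl hij) (f 0 0) (by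
        intro x hx
        have h0 := hx 0
        have h1 := hx 1
        simp only [Matrix.cons_val_zero, sub_zero, Matrix.cons_val_one, sub_neg_eq_add] at h0 h1
        simp only [lev_not D h0, lev_not D h1])]
      rw [Fin.sum_univ_two, T2_zero _ hq]
      simp only [Matrix.cons_val_zero, Matrix.cons_val_one, Nat.zero_min, zero_add]
      have e1 : ∀ x, D.lev (n + 1) (D.t * x + u) = 0 := by
        intro x
        apply lev_not
        intro h
        exact hut ((dvd_add_right (Dvd.intro x rfl)).mp h)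
      have e2 : ∀ x, D.lev (n + 1) (-u + D.t * x) = 0 := by
        intro x
        apply lev_not
        intro h
        have := (dvd_add_left (Dvd.intro x rfl)).mp h
        rw [dvd_neg] at this
        exact hut this
      have e3 : ∀ x, -u + D.t * x + u = D.t * x := fun x => by ring
      simp only [e1, e2, e3, lev_succ]
      rw [one_centre D n (fun j => f (j + 1) 0), one_centre D n (fun j => f 0 (j + 1))]
      simp only [Nat.add_min_add_right]
  | succ ρ ih =>
    intro n u hu f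
    rcases n with _ | n
    · simp only [lev_zero, Nat.min_zero]
      rw [I_const, T2_const _ _ hq]
    · have hF : Per D (n + 1) (fun x => f (D.lev (n + 1) x)
          (D.lev (n + 1) (x + D.t ^ (ρ + 1) * u))) := by
        intro x y h
        have h2 : D.t ^ (n + 1) ∣ x + D.t ^ (ρ + 1) * u - (y + D.t ^ (ρ + 1) * u) := by
          have e : x + D.t ^ (ρ + 1) * u - (y + D.t ^ (ρ + 1) * u) = x - y := by ring
          rw [e]; exact h
        simp only [lev_congr D h, lev_congr D h2]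
      have hd : D.t ∣ D.t ^ (ρ + 1) * u := Dvd.dvd.mul_right (dvd_pow_self _ (Nat.succ_ne_zero ρ)) u
      rw [split D hF (J := 1) (fun _ => 0) (fun i j h => absurd (Subsingleton.elim i j) h) (f 0 0)
        (fun x hx => by
          have h0 := hx 0
          rw [sub_zero] at h0
          have h1 : ¬ D.t ∣ x + D.t ^ (ρ + 1) * u := fun h => h0 ((dvd_add_left hd).mp h)
          simp only [lev_not D h0, lev_not D h1])]
      rw [Fin.sum_univ_one, mj_one, T2_succ _ _ hq]
      simp only [Nat.zero_min, zero_add]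
      have e3 : ∀ x, D.t * x + D.t ^ (ρ + 1) * u = D.t * (x + D.t ^ ρ * u) := fun x => by ring
      simp only [e3, lev_succ]
      rw [ih n u hu (fun a b => f (a + 1) (b + 1))]
      simp only [Nat.add_min_add_right]

end Pool.Agent.TH395.TZ
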