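import Pool.Agent.TH395.TZH_S3c0

/-!
Lattice sum blocks, legs, h = 0.
-/

set_option autoImplicit false
set_option linter.unusedSimpArgs false
set_option linter.unreachableTactic false
set_option linter.unusedTactic false
set_option linter.unnecessarySeqFocus false

namespace Pool.Agent.TH395.TZS

open Pool.Agent.TH32 Pool.Agent.TH359.TZH

lemma wb_mul (q : ℕ) {x : ℝ} (hx : 0 < x) (b m n : ℕ) (a : ℝ) :
    wbmn q x b m n * ENNReal.ofReal a =
      ENNReal.ofReal (x ^ (b + n + 2 * m) * (q : ℝ) ^ (3 * n + 2 * m) * a) := by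
  rw [ENNReal.ofReal_mul (wb_nn hx b m n)]
  rfl

theorem s3d0 : S3d0Stmt := by
  classical
  intro q x hq hx
  have hp1 : 0 ≤ 1 - (q : ℝ)⁻¹ := p1_nn hq
  have hp2 : 0 ≤ 1 - 2 * (q : ℝ)⁻¹ := p2_nn hq
  unfold E0
  simp only [← ENNReal.tsum_mul_left, mul_add, ENNReal.tsum_add]
  simp only [bsum, L0, List.map, List.sum_cons, List.sum_nil, add_zero, ← add_assoc]
  refine congrArg₂ (· + ·) (congrArg₂ (· + ·) (congrArg₂ (· + ·) ?_ ?_) ?_) ?_
  · simp only [legd]
    rw [blk_sum q x hq hx, tsum6]
    refine tsum_congr fun b => tsum_congr fun m => tsum_congr fun n => tsum_congr fun g => tsum_congr fun t => tsum_congr fun y => ?_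
    simp only [cnd, evs, ev_addF, ev_subF, bF, nF, mF, ev_cons, ev_single, ev_nil, zero_mul,
      one_mul, zero_add, add_zero, if_true, mj2_eq, mj3_eq]
    rw [← mul_assoc, wb_mul q hx]
    refine ite_mul_eq (by omega) fun _ => core hq t (y) (3 * n + 2 * m + (g + 1)) (b + n + 2 * m + (g + 1))
      (by positivity) (p1_nn hq)
      (by push_cast; ring) (by push_cast; ring)
      (by congr 1 <;> push_cast <;> first | rfl | ring)
      (by simp only [kap, p1, p2, p3]; push_cast; ring)
  · simp only [legd]
    rw [blk_sum q x hq hx, tsum5]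
    refine tsum_congr fun b => tsum_congr fun m => tsum_congr fun n => tsum_congr fun g => tsum_congr fun t => ?_
    simp only [cnd, evs, ev_addF, ev_subF, bF, nF, mF, ev_cons, ev_single, ev_nil, zero_mul,
      one_mul, zero_add, add_zero, if_true, mj2_eq, mj3_eq]
    rw [← mul_assoc, wb_mul q hx]
    exact core hq t (g + 1 + t) (3 * n + 2 * m + (g + 1)) (b + n + 2 * m + (g + 1))
      (by positivity) (p2_nn hq)
      (by push_cast; ring) (by push_cast; ring)
      (by congr 1 <;> push_cast <;> first | rfl | ring)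
      (by simp only [kap, p1, p2, p3]; push_cast; ring)
  · simp only [legd]
    rw [blk_sum q x hq hx, tsum6]
    refine tsum_congr fun b => tsum_congr fun m => tsum_congr fun n => tsum_congr fun g => tsum_congr fun t => tsum_congr fun y => ?_
    simp only [cnd, evs, ev_addF, ev_subF, bF, nF, mF, ev_cons, ev_single, ev_nil, zero_mul,
      one_mul, zero_add, add_zero, if_true, mj2_eq, mj3_eq]
    rw [← mul_assoc, wb_mul q hx]
    exact core hq t (g + 1 + t + y + 1) (3 * n + 2 * m + (g + 1)) (b + n + 2 * m + (g + 1))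
      (by positivity) (p1_nn hq)
      (by push_cast; ring) (by push_cast; ring)
      (by congr 1 <;> push_cast <;> first | rfl | ring)
      (by simp only [kap, p1, p2, p3]; push_cast; ring)
  · simp only [legd]
    rw [blk_sum q x hq hx, tsum6]
    refine tsum_congr fun b => tsum_congr fun m => tsum_congr fun n => tsum_congr fun g => tsum_congr fun t => tsum_congr fun y => ?_
    simp only [cnd, evs, ev_addF, ev_subF, bF, nF, mF, ev_cons, ev_single, ev_nil, zero_mul,
      one_mul, zero_add, add_zero, if_true, mj2_eq, mj3_eq]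
    rw [← mul_assoc, wb_mul q hx]
    exact core hq t (g + 1 + t + y + 1) (3 * n + 2 * m + (g + 1)) (b + n + 2 * m + (g + 1))
      (by positivity) (p1_nn hq)
      (by push_cast; ring) (by push_cast; ring)
      (by congr 1 <;> push_cast <;> first | rfl | ring)
      (by simp only [kap, p1, p2, p3]; push_cast; ring)

theorem s3e0 : S3e0Stmt := by
  classical
  intro q x hq hx
  have hp1 : 0 ≤ 1 - (q : ℝ)⁻¹ := p1_nn hq
  have hp2 : 0 ≤ 1 - 2 * (q : ℝ)⁻¹ := p2_nn hq
  unfold E0
  simp only [← ENNReal.tsum_mul_left, mul_add, ENNReal.tsum_add]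
  simp only [bsum, L0, List.map, List.sum_cons, List.sum_nil, add_zero, ← add_assoc]
  refine congrArg₂ (· + ·) (congrArg₂ (· + ·) (congrArg₂ (· + ·) ?_ ?_) ?_) ?_
  · simp only [lege]
    rw [blk_sum q x hq hx, tsum6]
    refine tsum_congr fun b => tsum_congr fun m => tsum_congr fun n => tsum_congr fun g => tsum_congr fun t => tsum_congr fun y => ?_
    simp only [cnd, evs, ev_addF, ev_subF, bF, nF, mF, ev_cons, ev_single, ev_nil, zero_mul,
      one_mul, zero_add, add_zero, if_true, mj2_eq, mj3_eq]
    rw [← mul_assoc, wb_mul q hx]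
    refine ite_mul_eq (by omega) fun _ => core hq t (y) (3 * n + 2 * m + (g + 1)) (b + n + 2 * m + (g + 1))
      (by positivity) (p1_nn hq)
      (by push_cast; ring) (by push_cast; ring)
      (by congr 1 <;> push_cast <;> first | rfl | ring)
      (by simp only [kap, p1, p2, p3]; push_cast; ring)
  · simp only [lege]
    rw [blk_sum q x hq hx, tsum5]
    refine tsum_congr fun b => tsum_congr fun m => tsum_congr fun n => tsum_congr fun g => tsum_congr fun t => ?_
    simp only [cnd, evs, ev_addF, ev_subF, bF, nF, mF, ev_cons, ev_single, ev_nil, zero_mul,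
      one_mul, zero_add, add_zero, if_true, mj2_eq, mj3_eq]
    rw [← mul_assoc, wb_mul q hx]
    exact core hq t (g + 1 + t) (3 * n + 2 * m + (g + 1)) (b + n + 2 * m + (g + 1))
      (by positivity) (p2_nn hq)
      (by push_cast; ring) (by push_cast; ring)
      (by congr 1 <;> push_cast <;> first | rfl | ring)
      (by simp only [kap, p1, p2, p3]; push_cast; ring)
  · simp only [lege]
    rw [blk_sum q x hq hx, tsum6]
    refine tsum_congr fun b => tsum_congr fun m => tsum_congr fun n => tsum_congr fun g => tsum_congr fun t => tsum_congr fun y => ?_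
    simp only [cnd, evs, ev_addF, ev_subF, bF, nF, mF, ev_cons, ev_single, ev_nil, zero_mul,
      one_mul, zero_add, add_zero, if_true, mj2_eq, mj3_eq]
    rw [← mul_assoc, wb_mul q hx]
    exact core hq t (g + 1 + t + y + 1) (3 * n + 2 * m + (g + 1)) (b + n + 2 * m + (g + 1))
      (by positivity) (p1_nn hq)
      (by push_cast; ring) (by push_cast; ring)
      (by congr 1 <;> push_cast <;> first | rfl | ring)
      (by simp only [kap, p1, p2, p3]; push_cast; ring)
  · simp only [lege]
    rw [blk_sum q x hq hx, tsum6]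
    refine tsum_congr fun b => tsum_congr fun m => tsum_congr fun n => tsum_congr fun g => tsum_congr fun t => tsum_congr fun y => ?_
    simp only [cnd, evs, ev_addF, ev_subF, bF, nF, mF, ev_cons, ev_single, ev_nil, zero_mul,
      one_mul, zero_add, add_zero, if_true, mj2_eq, mj3_eq]
    rw [← mul_assoc, wb_mul q hx]
    exact core hq t (g + 1 + t + y + 1) (3 * n + 2 * m + (g + 1)) (b + n + 2 * m + (g + 1))
      (by positivity) (p1_nn hq)
      (by push_cast; ring) (by push_cast; ring)
      (by congr 1 <;> push_cast <;> first | rfl | ring)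
      (by simp only [kap, p1, p2, p3]; push_cast; ring)

end Pool.Agent.TH395.TZS
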