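import Pool.Agent.TH395.TZH_SB

/-!
Lattice sum blocks, `k = 0`.
-/

set_option autoImplicit false

namespace Pool.Agent.TH395.TZS

open Pool.Agent.TH32 Pool.Agent.TH359.TZH

lemma wb_nn {q : ℕ} {x : ℝ} (hx : 0 < x) (b m n : ℕ) :
    0 ≤ x ^ (b + n + 2 * m) * (q : ℝ) ^ (3 * n + 2 * m) := by positivity

theorem s3c0 : S3c0Stmt := by
  classical
  intro q x hq hx
  unfold E0
  simp only [← ENNReal.tsum_mul_left, mul_add, ENNReal.tsum_add]
  simp only [bsum, B0, List.map, List.sum_cons, List.sum_nil, add_zero, ← add_assoc]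
  refine congrArg₂ (· + ·) (congrArg₂ (· + ·) (congrArg₂ (· + ·) ?_ ?_) ?_) ?_
  · simp only [cen]
    rw [blk_sum q x hq hx, tsum5]
    refine tsum_congr fun b => tsum_congr fun m => tsum_congr fun n => tsum_congr fun t =>
      tsum_congr fun y => ?_
    simp only [cnd, evs, ev_addF, ev_subF, bF, nF, mF, ev_cons, ev_single, ev_nil, zero_mul,
      one_mul, zero_add, add_zero]
    refine ite_mul_eq (by omega) fun _ => core hq t y (3 * n + 2 * m) (b + n + 2 * m)
      (wb_nn hx b m n) (p1_nn hq) (by push_cast; ring) (by push_cast; ring)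
      (by congr 1 <;> push_cast <;> first | rfl | ring) (by simp only [kap, p1, p2, p3]; push_cast; ring)
  · simp only [cen]
    rw [blk_sum q x hq hx, tsum4]
    refine tsum_congr fun b => tsum_congr fun m => tsum_congr fun n => tsum_congr fun t => ?_
    simp only [cnd, evs, ev_addF, ev_subF, bF, nF, mF, ev_cons, ev_single, ev_nil, zero_mul,
      one_mul, zero_add, add_zero, if_true, mj2_eq]
    exact core hq t t (3 * n + 2 * m) (b + n + 2 * m)
      (wb_nn hx b m n) (p2_nn hq) (by push_cast; ring) (by push_cast; ring)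
      (by congr 1 <;> push_cast <;> first | rfl | ring) (by simp only [kap, p1, p2, p3]; push_cast; ring)
  · simp only [cen]
    rw [blk_sum q x hq hx, tsum5]
    refine tsum_congr fun b => tsum_congr fun m => tsum_congr fun n => tsum_congr fun t =>
      tsum_congr fun y => ?_
    simp only [cnd, evs, ev_addF, ev_subF, bF, nF, mF, ev_cons, ev_single, ev_nil, zero_mul,
      one_mul, zero_add, add_zero, if_true]
    exact core hq t (t + y + 1) (3 * n + 2 * m) (b + n + 2 * m)
      (wb_nn hx b m n) (p1_nn hq) (by push_cast; ring) (by push_cast; ring)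
      (by congr 1 <;> push_cast <;> first | rfl | ring) (by simp only [kap, p1, p2, p3]; push_cast; ring)
  · simp only [cen]
    rw [blk_sum q x hq hx, tsum5]
    refine tsum_congr fun b => tsum_congr fun m => tsum_congr fun n => tsum_congr fun t =>
      tsum_congr fun y => ?_
    simp only [cnd, evs, ev_addF, ev_subF, bF, nF, mF, ev_cons, ev_single, ev_nil, zero_mul,
      one_mul, zero_add, add_zero, if_true]
    exact core hq t (t + y + 1) (3 * n + 2 * m) (b + n + 2 * m)
      (wb_nn hx b m n) (p1_nn hq) (by push_cast; ring) (by push_cast; ring)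
      (by congr 1 <;> push_cast <;> first | rfl | ring) (by simp only [kap, p1, p2, p3]; push_cast; ring)

end Pool.Agent.TH395.TZS
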