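import Pool.Agent.TH32.H.Blocks
import Pool.Agent.TH359.TZH_FF

/-!
General lemmas on the blocks of lattice sums.
-/

set_option autoImplicit false

namespace Pool.Agent.TH395.TZS

open Pool.Agent.TH32 Pool.Agent.TH359.TZH

/-! ### Iterated sums -/

lemma tsum_cons {K : ℕ} (F : (Fin (K + 1) → ℕ) → ENNReal) :
    ∑' v : Fin (K + 1) → ℕ, F v = ∑' a : ℕ, ∑' w : Fin K → ℕ, F (Matrix.vecCons a w) := by
  rw [← ENNReal.tsum_prod]
  exact ((Fin.consEquiv (fun _ : Fin (K + 1) => ℕ)).tsum_eq F).symm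

lemma tsum_fin0 (F : (Fin 0 → ℕ) → ENNReal) : ∑' v : Fin 0 → ℕ, F v = F ![] := by
  rw [tsum_eq_single ![] (fun v hv => absurd (Subsingleton.elim v ![]) hv)]

lemma tsum4 (F : (Fin 4 → ℕ) → ENNReal) :
    ∑' v : Fin 4 → ℕ, F v = ∑' b : ℕ, ∑' m : ℕ, ∑' n : ℕ, ∑' t : ℕ, F ![b, n, m, t] := by
  simp only [tsum_cons, tsum_fin0]
  exact tsum_congr fun b => ENNReal.tsum_comm

lemma tsum5 (F : (Fin 5 → ℕ) → ENNReal) :
    ∑' v : Fin 5 → ℕ, F v = ∑' b : ℕ, ∑' m : ℕ, ∑' n : ℕ, ∑' t : ℕ, ∑' y : ℕ,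
      F ![b, n, m, t, y] := by
  simp only [tsum_cons, tsum_fin0]
  exact tsum_congr fun b => ENNReal.tsum_comm

lemma tsum6 (F : (Fin 6 → ℕ) → ENNReal) :
    ∑' v : Fin 6 → ℕ, F v = ∑' b : ℕ, ∑' m : ℕ, ∑' n : ℕ, ∑' g : ℕ, ∑' t : ℕ, ∑' y : ℕ,
      F ![b, n, m, g, t, y] := by
  simp only [tsum_cons, tsum_fin0]
  exact tsum_congr fun b => ENNReal.tsum_comm

lemma tsum7 (F : (Fin 7 → ℕ) → ENNReal) :
    ∑' v : Fin 7 → ℕ, F v = ∑' b : ℕ, ∑' m : ℕ, ∑' n : ℕ, ∑' g : ℕ, ∑' h : ℕ, ∑' t : ℕ,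
      ∑' y : ℕ, F ![b, n, m, g, h, t, y] := by
  simp only [tsum_cons, tsum_fin0]
  exact tsum_congr fun b => ENNReal.tsum_comm

/-! ### Values of the trees -/

/-- the condition of a block -/
def cnd {K : ℕ} (c : Option (Fm × Fm)) (v : Fin K → ℕ) : Prop :=
  match c with
  | none => True
  | some p => ev p.1 v ≤ ev p.2 v

/-- the value of the argument `s` -/
def evs {K : ℕ} (s : Fm × Option Fm) (v : Fin K → ℕ) : ℤ :=
  match s with
  | (a, none) => ev a v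
  | (a, some b) => min (ev a v) (ev b v)

open Classical in
lemma val_cK {K : ℕ} (q x : ℝ) (v : Fin K → ℕ) (c : Option (Fm × Fm)) (t : Fac) :
    (cK c t).val q x v = if cnd c v then t.val q x v else 0 := by
  rcases c with _ | p
  · show t.val q x v = _
    rw [if_pos (show cnd none v from trivial)]
  · show (rq p.1 p.2 t).val q x v = _
    rw [val_rq rfl rfl rfl]
    unfold rqV cnd
    split_ifs <;> rfl

lemma val_sK {K : ℕ} (q x : ℝ) (v : Fin K → ℕ) (s : Fm × Option Fm) (k : Fm → Fac) (g : ℤ → ℝ)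
    (hk : ∀ c, (k c).val q x v = g (ev c v)) : (sK s k).val q x v = g (evs s v) := by
  rcases s with ⟨a, _ | b⟩
  · exact hk a
  · exact val_mn rfl rfl hk

lemma F1_nonneg {q : ℝ} (hq : 0 < q) (b n mc md Mc Md Je s c d e : ℤ) :
    0 ≤ F1 q b n mc md Mc Md Je s c d e := by
  unfold F1
  simp only
  split_ifs <;> first | exact le_refl _ | positivity

lemma F2_nonneg {q : ℝ} (hq : 0 < q) (b n mc md Mc Md Je s c d e : ℤ) :
    0 ≤ F2 q b n mc md Mc Md Je s c d e := by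
  unfold F2
  simp only
  split_ifs with h1 h2
  · have h3 := h2.2.2
    have h4 : (0 : ℝ) ≤ ((min n (min e n + max (b - Je) 0) - max (n - md) 0 -
        max (n - mc) 0 : ℤ) : ℝ) := by
      exact_mod_cast (by omega)
    positivity
  · simp
  · exact le_refl _

lemma kap_nonneg {q : ℝ} (hq : 3 ≤ q) (m u u2 u3 : ℕ) : 0 ≤ kap q m u u2 u3 := by
  have h0 : (0 : ℝ) < q := by linarith
  have h3 : 3 * q⁻¹ ≤ 1 := by
    rw [← div_eq_mul_inv, div_le_one h0]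
    exact hq
  have hi : 0 < q⁻¹ := by positivity
  unfold kap
  have h1 : 0 ≤ 1 - q⁻¹ := by linarith
  have h2 : 0 ≤ 1 - 2 * q⁻¹ := by linarith
  have h4 : 0 ≤ 1 - 3 * q⁻¹ := by linarith
  positivity

open Classical in
/-- the general block -/
lemma blk_sum (q : ℕ) (x : ℝ) (hq : 3 ≤ q) (hx : 0 < x) (K m u u2 u3 : ℕ)
    (c : Option (Fm × Fm)) (s : Fm × Option Fm) (b n mc md Mc Md Je Y X Z E Xe : Fm) :
    Blk.sum q x { K := K, m := m, u := u, u2 := u2, u3 := u3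
                  A := cK c (sK s fun s => FF1 b n mc md Mc Md Je s Y X Z E Xe)
                  B := cK c (sK s fun s => FF2 b n mc md Mc Md Je s Y X Z E Xe) } =
    ∑' v : Fin K → ℕ, if cnd c v then
      ENNReal.ofReal (kap q m u u2 u3 * ((q : ℝ) ^ (ev E v) * x ^ (ev Xe v) *
        Fv q (ev b v) (ev n v) (ev mc v) (ev md v) (ev Mc v) (ev Md v) (ev Je v) (evs s v)
          (ev Y v) (ev X v) (ev Z v))) else 0 := by
  have hq0 : (0 : ℝ) < q := by exact_mod_cast (by omega : 0 < q)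
  have hq3 : (3 : ℝ) ≤ q := by exact_mod_cast hq
  have hk := kap_nonneg hq3 m u u2 u3
  unfold Blk.sum
  simp only
  rw [← ENNReal.tsum_mul_left, ← ENNReal.tsum_add, ← ENNReal.tsum_mul_left]
  refine tsum_congr fun v => ?_
  rw [val_cK, val_cK]
  by_cases h : cnd c v
  · rw [if_pos h, if_pos h, if_pos h]
    rw [val_sK (q : ℝ) x v s _ (fun s => (q : ℝ) ^ ev E v * x ^ ev Xe v *
      F1 q (ev b v) (ev n v) (ev mc v) (ev md v) (ev Mc v) (ev Md v)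
        (ev Je v) s (ev Y v) (ev X v) (ev Z v))
      (fun c => (ffval K v q x hq0 hx b n mc md Mc Md Je c Y X Z E Xe).1),
      val_sK (q : ℝ) x v s _ (fun s => (q : ℝ) ^ ev E v * x ^ ev Xe v *
      F2 q (ev b v) (ev n v) (ev mc v) (ev md v) (ev Mc v) (ev Md v)
        (ev Je v) s (ev Y v) (ev X v) (ev Z v))
      (fun c => (ffval K v q x hq0 hx b n mc md Mc Md Je c Y X Z E Xe).2)]
    have h1 := F1_nonneg hq0 (ev b v) (ev n v) (ev mc v) (ev md v) (ev Mc v) (ev Md v)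
        (ev Je v) (evs s v) (ev Y v) (ev X v) (ev Z v)
    have h2 := F2_nonneg hq0 (ev b v) (ev n v) (ev mc v) (ev md v) (ev Mc v) (ev Md v)
        (ev Je v) (evs s v) (ev Y v) (ev X v) (ev Z v)
    have h3 : 0 ≤ 1 - (q : ℝ)⁻¹ := by
      have : (q : ℝ)⁻¹ ≤ 1 := inv_le_one_of_one_le₀ (by linarith)
      linarith
    rw [← ENNReal.ofReal_mul h3, ← ENNReal.ofReal_add (by positivity) (by positivity),
      ← ENNReal.ofReal_mul hk]
    congr 1
    unfold Fv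
    ring
  · rw [if_neg h, if_neg h, if_neg h]
    simp

/-! ### Evaluation of forms -/

lemma ev_cons {K : ℕ} (c a : ℤ) (f : Fm) (x : ℕ) (v : Fin K → ℕ) :
    ev (c :: a :: f) (Matrix.vecCons x v) = a * x + ev (c :: f) v := by
  unfold ev
  rw [Fin.sum_univ_succ]
  simp only [List.getD_cons_zero, Fin.val_zero, zero_add, List.getD_cons_succ,
    Matrix.cons_val_zero, Matrix.cons_val_succ, Fin.val_succ]
  ring

lemma ev_single {K : ℕ} (c : ℤ) (v : Fin K → ℕ) : ev [c] v = c := by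
  unfold ev
  simp

/-! ### Weights -/

noncomputable def p1 (q : ℕ) : ℝ := 1 - (q : ℝ)⁻¹
noncomputable def p2 (q : ℕ) : ℝ := 1 - 2 * (q : ℝ)⁻¹
noncomputable def p3 (q : ℕ) : ℝ := 1 - 3 * (q : ℝ)⁻¹

lemma inv_le {q : ℕ} (hq : 3 ≤ q) : 3 * (q : ℝ)⁻¹ ≤ 1 := by
  have h0 : (0 : ℝ) < q := by exact_mod_cast (by omega : 0 < q)
  rw [← div_eq_mul_inv, div_le_one h0]
  exact_mod_cast hq

lemma p1_nn {q : ℕ} (hq : 3 ≤ q) : 0 ≤ p1 q := by
  have h0 : (0 : ℝ) ≤ (q : ℝ)⁻¹ := by positivity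
  have := inv_le hq
  unfold p1; linarith

lemma p2_nn {q : ℕ} (hq : 3 ≤ q) : 0 ≤ p2 q := by
  have h0 : (0 : ℝ) ≤ (q : ℝ)⁻¹ := by positivity
  have := inv_le hq
  unfold p2; linarith

lemma p3_nn {q : ℕ} (hq : 3 ≤ q) : 0 ≤ p3 q := by
  have := inv_le hq
  unfold p3; linarith

lemma mu_eq (q t : ℕ) : mu q t = ENNReal.ofReal (p1 q * ((q : ℝ)⁻¹) ^ t) := rfl

lemma mj2_eq (q t : ℕ) : mj 2 q t = ENNReal.ofReal (p2 q * ((q : ℝ)⁻¹) ^ t) := by
  unfold mj p2; norm_num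

lemma mj3_eq (q t : ℕ) : mj 3 q t = ENNReal.ofReal (p3 q * ((q : ℝ)⁻¹) ^ t) := by
  unfold mj p3; norm_num

lemma kap_eq (q m u u2 u3 : ℕ) : kap q m u u2 u3 = m * p1 q ^ u * p2 q ^ u2 * p3 q ^ u3 := rfl

/-- combination of the weights: a base weight `w`, the weight of `t`, a last weight -/
lemma core {q : ℕ} {x : ℝ} (hq : 3 ≤ q) {w pa F F' : ℝ} (t s A C : ℕ)
    {E Xe : ℤ} {k : ℝ} (hw : 0 ≤ w) (hpa : 0 ≤ pa) (hE : E = A - ((t + s : ℕ) : ℤ)) (hX : Xe = C)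
    (hF : F = F') (hk : w * (p1 q * pa) = k * ((q : ℝ) ^ A * x ^ C)) :
    ENNReal.ofReal w * (ENNReal.ofReal (p1 q * ((q : ℝ)⁻¹) ^ t) *
      (ENNReal.ofReal (pa * ((q : ℝ)⁻¹) ^ s) * ENNReal.ofReal F)) =
    ENNReal.ofReal (k * ((q : ℝ) ^ E * x ^ Xe * F')) := by
  have hq0 : (0 : ℝ) < q := by exact_mod_cast (by omega : 0 < q)
  have h1 := p1_nn hq
  rw [← ENNReal.ofReal_mul (by positivity), ← ENNReal.ofReal_mul (by positivity),
    ← ENNReal.ofReal_mul hw]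
  congr 1
  rw [hE, hX, hF, zpow_sub₀ hq0.ne', zpow_natCast, zpow_natCast, zpow_natCast, div_eq_mul_inv,
    ← inv_pow, pow_add]
  linear_combination (((q : ℝ)⁻¹) ^ t * ((q : ℝ)⁻¹) ^ s * F') * hk

/-- conditions -/
lemma ite_mul_eq {P Q : Prop} [Decidable P] [Decidable Q] (hPQ : P ↔ Q) {w t a b : ENNReal}
    (h : P → w * (t * a) = b) :
    w * (t * (if P then a else 0)) = if Q then b else 0 := by
  by_cases hP : P
  · rw [if_pos hP, if_pos (hPQ.mp hP), h hP]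
  · rw [if_neg hP, if_neg (fun hQ => hP (hPQ.mpr hQ)), mul_zero, mul_zero]

end Pool.Agent.TH395.TZS
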